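import Pool.Agent.U687.JT.Frob

/-!
# Independence of the square roots, the fourth root of `-7` and the cube roots
-/

set_option autoImplicit false
set_option linter.unusedSectionVars false
set_option linter.style.haveILetI false

namespace Pool.Agent.U687.JT

open NumberField Pool.Agent.W401.Cheb Finset
open Q283.TW (frob_sqrt gal_sqrt ng ng_mul mul_pm)
open Q283.TC (Dat HH mem_HH frob_z)
open Pool.Agent.Y692.QS (Ei)
open Pool.Agent.Y715.T.RecG (Pq)

/-- a general lemma: maps to groups of exponents `2` and `3` -/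
theorem prod_surj {G A B : Type} [Group G] [AddCommGroup A] [AddCommGroup B]
    (f : G →* Multiplicative A) (h : G →* Multiplicative B) (hA : ∀ a : A, a + a = 0)
    (hB : ∀ b : B, b + b + b = 0) (hf : Function.Surjective f) (hh : Function.Surjective h) :
    Function.Surjective (f.prod h) := by
  rintro ⟨a, b⟩
  obtain ⟨x, hx⟩ := hf a
  obtain ⟨y, hy⟩ := hh b
  refine ⟨x ^ 3 * y ^ 4, ?_⟩
  have ha2 : ∀ c : Multiplicative A, c * c = 1 := fun c => hA (Multiplicative.toAdd c)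
  have hb3 : ∀ c : Multiplicative B, c * c * c = 1 := fun c => hB (Multiplicative.toAdd c)
  have h1 : f (x ^ 3 * y ^ 4) = a := by
    rw [map_mul, map_pow, map_pow, hx]
    have e1 : a ^ 3 = a * a * a := by rw [pow_succ, pow_two]
    have e2 : (f y) ^ 4 = (f y * f y) * (f y * f y) := by
      rw [← pow_two, ← pow_two, ← pow_mul]
    have e3 : a * a * a = a := by rw [ha2, one_mul]
    have e4 : (f y * f y) * (f y * f y) = 1 := ha2 _
    rw [e1, e2, e3, e4, mul_one]
  have h2 : h (x ^ 3 * y ^ 4) = b := by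
    rw [map_mul, map_pow, map_pow, hy]
    have e1 : (h x) ^ 3 = h x * h x * h x := by rw [pow_succ, pow_two]
    have e2 : b ^ 4 = b * b * b * b := by rw [pow_succ, pow_succ, pow_two]
    rw [e1, e2, hb3, hb3, one_mul, one_mul]
  exact Prod.ext h1 h2

section
variable {L : Type} [Field L] [NumberField L] [IsGalois ℚ L] {P : Finset Ei} {R : Finset ℕ}
  (E3 : Dat L P) (E : QDat L R)

/-- the automorphisms fixing the third roots of unity and `I` -/
def H0 : Subgroup Gal(L/ℚ) where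
  carrier := {g | g • E3.Z = E3.Z ∧ g E.I = E.I}
  mul_mem' := by
    rintro a b ⟨a1, a2⟩ ⟨b1, b2⟩
    refine ⟨(HH E3.Z).mul_mem a1 b1, ?_⟩
    show a (b _) = _
    rw [b2, a2]
  one_mem' := ⟨one_smul _ _, rfl⟩
  inv_mem' := by
    rintro a ⟨a1, a2⟩
    refine ⟨(HH E3.Z).inv_mem a1, ?_⟩
    have := congrArg (a⁻¹ : Gal(L/ℚ)) a2
    rw [← AlgEquiv.mul_apply, inv_mul_cancel, AlgEquiv.one_apply] at this
    exact this.symm

theorem mem_H0 {g : Gal(L/ℚ)} : g ∈ H0 E3 E ↔ g • E3.Z = E3.Z ∧ g E.I = E.I := Iff.rfl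

/-- the automorphisms fixing the third roots of unity, `I` and `θ ^ 2` -/
def H1 : Subgroup Gal(L/ℚ) where
  carrier := {g | g ∈ H0 E3 E ∧ g (E.θ ^ 2) = E.θ ^ 2}
  mul_mem' := by
    rintro a b ⟨a1, a2⟩ ⟨b1, b2⟩
    refine ⟨(H0 E3 E).mul_mem a1 b1, ?_⟩
    show a (b _) = _
    rw [b2, a2]
  one_mem' := ⟨(H0 E3 E).one_mem, rfl⟩
  inv_mem' := by
    rintro a ⟨a1, a2⟩
    refine ⟨(H0 E3 E).inv_mem a1, ?_⟩
    have := congrArg (a⁻¹ : Gal(L/ℚ)) a2
    rw [← AlgEquiv.mul_apply, inv_mul_cancel, AlgEquiv.one_apply] at this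
    exact this.symm

theorem mem_H1 {g : Gal(L/ℚ)} : g ∈ H1 E3 E ↔ g ∈ H0 E3 E ∧ g (E.θ ^ 2) = E.θ ^ 2 := Iff.rfl

theorem H0_le : H0 E3 E ≤ HH E3.Z := fun _ h => h.1

theorem H1_le : H1 E3 E ≤ H0 E3 E := fun _ h => h.1

variable (hR : ∀ r ∈ R, r ≠ 0)

include hR in
theorem QDat.s0 {r : ℕ} (h : r ∈ R) : E.s r ≠ 0 := by
  intro h0
  have h1 := E.hs r h
  rw [h0, zero_pow (by norm_num)] at h1
  have h2 : ((r : ℕ) : L) = 0 := by exact_mod_cast h1.symm
  exact hR r h (by exact_mod_cast h2)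

theorem ng_one (x : L) : ng (1 : Gal(L/ℚ)) x = 0 := by unfold ng; simp

/-- the symbols, inert case -/
noncomputable def Φ0 : H0 E3 E →* Multiplicative ((R → ZMod 2) × ZMod 2) where
  toFun g := Multiplicative.ofAdd (fun r : R => ng g.1 (E.s r), ng g.1 (E.θ ^ 2))
  map_one' := by
    rw [← ofAdd_zero]
    congr 1
    refine Prod.ext ?_ ?_
    · funext r
      exact ng_one _
    · exact ng_one _
  map_mul' g h := by
    rw [← ofAdd_add]
    congr 1
    refine Prod.ext ?_ ?_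
    · funext r
      exact ng_mul _ _ (E.s0 hR r.2) (gal_sqrt g.1 (E.hs r r.2)) (gal_sqrt h.1 (E.hs r r.2))
    · exact ng_mul _ _ (pow_ne_zero 2 E.theta0) (gal_sqrt g.1 E.hθ) (gal_sqrt h.1 E.hθ)

/-- the symbols, split case -/
noncomputable def Φ1 : H1 E3 E →* Multiplicative ((R → ZMod 2) × ZMod 2) where
  toFun g := Multiplicative.ofAdd (fun r : R => ng g.1 (E.s r), ng g.1 E.θ)
  map_one' := by
    rw [← ofAdd_zero]
    congr 1
    refine Prod.ext ?_ ?_
    · funext r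
      exact ng_one _
    · exact ng_one _
  map_mul' g h := by
    rw [← ofAdd_add]
    congr 1
    refine Prod.ext ?_ ?_
    · funext r
      exact ng_mul _ _ (E.s0 hR r.2) (gal_sqrt g.1 (E.hs r r.2)) (gal_sqrt h.1 (E.hs r r.2))
    · exact ng_mul _ _ E.theta0 (E.gal_theta g.1 g.2.2) (E.gal_theta h.1 h.2.2)

end

theorem two_nsq : ∀ y : ZMod 3, (2 : ZMod 3) ≠ y * y := by decide

/-- primes with given symbols, `1` modulo `12`, for which `-7` is a square -/
theorem exists_prime_a (R : Finset ℕ) (hR : ∀ r ∈ R, r.Prime ∧ r % 4 = 1) (ε : ℕ → Prop) (B : ℕ) :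
    ∃ p, B < p ∧ p.Prime ∧ p % 4 = 1 ∧ p % 3 = 1 ∧ IsSquare (-7 : ZMod p) ∧
      ∀ r ∈ R, (IsSquare (r : ZMod p) ↔ ε r) := by
  classical
  have h3R : 3 ∉ R := by
    intro h
    have := (hR 3 h).2
    norm_num at this
  obtain ⟨p, h1, h2, h3, h4⟩ := Q283.TW.exists_prime_symbols (insert 3 R) (by
    intro r hr
    rcases Finset.mem_insert.1 hr with rfl | hr
    · exact ⟨Nat.prime_three, by norm_num, by norm_num⟩
    · obtain ⟨h1, h2⟩ := hR r hr
      refine ⟨h1, ?_, ?_⟩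
      · rintro rfl; norm_num at h2
      · rintro rfl; norm_num at h2) (fun r => if r = 3 then True else ε r) (max B 7)
  have hB : B < p := lt_of_le_of_lt (le_max_left _ _) h1
  have h7 : 7 < p := lt_of_le_of_lt (le_max_right _ _) h1
  haveI : Fact p.Prime := ⟨h2⟩
  refine ⟨p, hB, h2, by omega, ?_, ?_, ?_⟩
  · have h5 := (h4 3 (Finset.mem_insert_self _ _)).2 (by rw [if_pos rfl]; trivial)
    have hp4 : p % 4 = 1 := by omega
    haveI : Fact (Nat.Prime 3) := ⟨Nat.prime_three⟩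
    rw [ZMod.exists_sq_eq_prime_iff_of_mod_four_eq_one hp4 (by norm_num)] at h5
    have h6 : p % 3 = 0 ∨ p % 3 = 1 ∨ p % 3 = 2 := by omega
    rcases h6 with h6 | h6 | h6
    · exfalso
      have := (Nat.prime_dvd_prime_iff_eq Nat.prime_three h2).1 (Nat.dvd_of_mod_eq_zero h6)
      omega
    · exact h6
    · exfalso
      have h8 : ((p : ℕ) : ZMod 3) = 2 := by
        have : ((p : ℕ) : ZMod 3) = ((2 : ℕ) : ZMod 3) := by
          rw [ZMod.natCast_eq_natCast_iff]
          exact h6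
        rw [this]
        rfl
      rw [h8] at h5
      obtain ⟨y, hy⟩ := h5
      exact two_nsq y hy
  · rw [Q283.TW.neg7_iff p (by omega) (by omega)]
    omega
  · intro r hr
    have h5 := h4 r (Finset.mem_insert_of_mem hr)
    have h6 : r ≠ 3 := by
      rintro rfl
      exact h3R hr
    rw [if_neg h6] at h5
    exact h5

theorem exists_prime_b (B : ℕ) : ∃ p, B < p ∧ p.Prime ∧ p % 84 = 61 := by
  obtain ⟨p, hpB, hp, hpk⟩ := Nat.forall_exists_prime_gt_and_modEq B (q := 84) (a := 61)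
    (by norm_num) (by norm_num)
  refine ⟨p, hpB, hp, ?_⟩
  unfold Nat.ModEq at hpk
  omega

section
variable {L : Type} [Field L] [NumberField L] [IsGalois ℚ L] {P : Finset Ei} {R : Finset ℕ}
  (E3 : Dat L P) (E : QDat L R)

/-- Frobenius elements exist -/
theorem exists_fr (p : ℕ) [hp : Fact p.Prime] (h : TorAt L p) :
    ∃ (φ : 𝓞 L →+* AlgebraicClosure (ZMod p)) (g : Gal(L/ℚ)), HasFrob p φ g := by
  have h1 : 0 < Nat.card (𝓞 L →+* AlgebraicClosure (ZMod p)) := by
    rw [h.1]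
    exact Nat.card_pos
  obtain ⟨φ⟩ := (Nat.card_pos_iff.1 h1).1
  obtain ⟨g, hg⟩ := exists_frob h φ
  exact ⟨φ, g, hg⟩

variable (hR : ∀ r ∈ R, r ≠ 0) (hR' : ∀ r ∈ R, r.Prime ∧ r % 4 = 1)

include hR' in
theorem surj0 : Function.Surjective (Φ0 E3 E hR) := by
  classical
  obtain ⟨D₁, hD₁, htor⟩ := torsor L
  -- the bound
  set B := D₁ + 7 + ∏ r ∈ R, r with hB
  have hprod : 0 < ∏ r ∈ R, r := Finset.prod_pos fun r hr => (hR' r hr).1.pos
  have hle : ∀ r ∈ R, r ≤ ∏ r ∈ R, r := fun r hr =>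
    Nat.le_of_dvd hprod (Finset.dvd_prod_of_mem (fun r => r) hr)
  have hfr : ∀ p : ℕ, B < p → p.Prime → p % 4 = 1 → p % 3 = 1 → ∃ g : H0 E3 E,
      (∀ r : R, ng g.1 (E.s r) = nr2 p r) ∧
      (IsSquare (-7 : ZMod p) → ng g.1 (E.θ ^ 2) = 0) ∧
      (¬ IsSquare (-7 : ZMod p) → ng g.1 (E.θ ^ 2) = 1) := by
    intro p hBp hp h4 h3
    haveI : Fact p.Prime := ⟨hp⟩
    have hpD : ¬ p ∣ D₁ := fun h => by
      have := Nat.le_of_dvd hD₁ h
      omega
    obtain ⟨φ, g, hφ⟩ := exists_fr (L := L) p (htor p hpD)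
    have h2 : p ≠ 2 := by omega
    have h30 : p ≠ 3 := by omega
    have h7 : p ≠ 7 := by omega
    refine ⟨⟨g, (frob_z E3.hZ hφ h30).2 h3, (E.frob_I hφ h2).2 h4⟩, ?_, ?_, ?_⟩
    · intro r
      refine E.frob_s hφ h2 r.2 fun hd => ?_
      have h5 := Nat.le_of_dvd (hR' r r.2).1.pos hd
      have h6 := hle r r.2
      omega
    · intro h
      unfold ng
      rw [if_pos ((E.frob_7 hφ h2 h7).2 h)]
    · intro h
      unfold ng
      rw [if_neg (fun h' => h ((E.frob_7 hφ h2 h7).1 h'))]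
  have hall : ∀ u : R → ZMod 2, ∃ g : H0 E3 E, Φ0 E3 E hR g = Multiplicative.ofAdd (u, 0) := by
    intro u
    obtain ⟨p, h1, h2, h3, h4, h5, h6⟩ := exists_prime_a R hR'
      (fun r => ∀ h : r ∈ R, u ⟨r, h⟩ = 0) B
    obtain ⟨g, g1, g2, -⟩ := hfr p h1 h2 h3 h4
    refine ⟨g, ?_⟩
    show Multiplicative.ofAdd _ = _
    congr 1
    refine Prod.ext ?_ (g2 h5)
    funext r
    show ng g.1 (E.s r) = u r
    rw [g1 r]
    unfold nr2
    have h7 := h6 r r.2
    by_cases hr : u r = 0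
    · rw [if_pos (h7.2 fun h => hr), hr]
    · rw [if_neg fun h => hr (h7.1 h r.2)]
      have : ∀ x : ZMod 2, x ≠ 0 → 1 = x := by decide
      exact this _ hr
  obtain ⟨p, h1, h2, h3⟩ := exists_prime_b B
  haveI : Fact p.Prime := ⟨h2⟩
  obtain ⟨k, -, -, k3⟩ := hfr p h1 h2 (by omega) (by omega)
  have hk : ng k.1 (E.θ ^ 2) = 1 := by
    apply k3
    rw [Q283.TW.neg7_iff p (by omega) (by omega)]
    omega
  intro x
  set y := Multiplicative.toAdd x with hy
  have hx : x = Multiplicative.ofAdd y := rfl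
  have h01 : y.2 = 0 ∨ y.2 = 1 := by
    have : ∀ z : ZMod 2, z = 0 ∨ z = 1 := by decide
    exact this _
  rcases h01 with h0 | h0
  · obtain ⟨g, hg⟩ := hall y.1
    refine ⟨g, ?_⟩
    rw [hg, hx]
    congr 1
    exact Prod.ext rfl h0.symm
  · obtain ⟨g, hg⟩ := hall (y.1 - fun r : R => ng k.1 (E.s r))
    refine ⟨g * k, ?_⟩
    rw [map_mul, hg, hx]
    show Multiplicative.ofAdd _ * Multiplicative.ofAdd _ = _
    rw [← ofAdd_add]
    congr 1
    refine Prod.ext ?_ ?_
    · show y.1 - _ + _ = y.1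
      rw [sub_add_cancel]
    · show 0 + ng k.1 (E.θ ^ 2) = y.2
      rw [hk, h0, zero_add]

include hR' in
theorem surj1 : Function.Surjective (Φ1 E3 E hR) := by
  classical
  have h0 := surj0 E3 E hR hR'
  have hn : ∀ g : Gal(L/ℚ), ng g (E.θ ^ 2) = 0 → g (E.θ ^ 2) = E.θ ^ 2 := by
    intro g hg
    by_contra hc
    unfold ng at hg
    rw [if_neg hc] at hg
    exact one_ne_zero hg
  have hn1 : ∀ g : Gal(L/ℚ), ng g (E.θ ^ 2) = 1 → g (E.θ ^ 2) = -E.θ ^ 2 := by
    intro g hg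
    rcases gal_sqrt g E.hθ with h | h
    · unfold ng at hg
      rw [if_pos h] at hg
      exact absurd hg zero_ne_one
    · exact h
  obtain ⟨k, hk⟩ := h0 (Multiplicative.ofAdd (0, 1))
  have hk' := congrArg Multiplicative.toAdd hk
  have hk1 : ∀ r : R, ng k.1 (E.s r) = 0 := fun r => congrFun (congrArg Prod.fst hk') r
  have hk2 : ng k.1 (E.θ ^ 2) = 1 := congrArg Prod.snd hk'
  have hk3 := hn1 k.1 hk2
  have hkk : (k.1 * k.1) (E.θ ^ 2) = E.θ ^ 2 := by
    show k.1 (k.1 _) = _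
    rw [hk3, map_neg, hk3, neg_neg]
  set κ : H1 E3 E := ⟨k.1 * k.1, (k * k).2, hkk⟩ with hκ
  have hκθ : ng κ.1 E.θ = 1 := by
    have h1 : (k.1 * k.1) E.θ = -E.θ := E.sq_theta k.1 k.2.2 hk3
    unfold ng
    rw [if_neg]
    show ¬ (k.1 * k.1) E.θ = E.θ
    rw [h1]
    intro h
    apply E.theta0
    have : (2 : L) * E.θ = 0 := by linear_combination -h
    rcases mul_eq_zero.1 this with h5 | h5
    · norm_num at h5
    · exact h5
  have hκs : ∀ r : R, ng κ.1 (E.s r) = 0 := by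
    intro r
    have h1 : k.1 (E.s r) = E.s r := by
      by_contra hc
      have h2 := hk1 r
      unfold ng at h2
      rw [if_neg hc] at h2
      exact one_ne_zero h2
    have h3 : (k.1 * k.1) (E.s r) = E.s r := by
      show k.1 (k.1 _) = _
      rw [h1, h1]
    unfold ng
    rw [if_pos h3]
  have hΦκ : Φ1 E3 E hR κ = Multiplicative.ofAdd (0, 1) := by
    show Multiplicative.ofAdd _ = _
    congr 1
    exact Prod.ext (funext hκs) hκθ
  intro x
  set y := Multiplicative.toAdd x with hy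
  have hx : x = Multiplicative.ofAdd y := rfl
  obtain ⟨g, hg⟩ := h0 (Multiplicative.ofAdd (y.1, 0))
  have hg' := congrArg Multiplicative.toAdd hg
  have hg1 : ∀ r : R, ng g.1 (E.s r) = y.1 r := fun r => congrFun (congrArg Prod.fst hg') r
  have hg2 := hn g.1 (congrArg Prod.snd hg')
  set γ : H1 E3 E := ⟨g.1, g.2, hg2⟩ with hγ
  have hz : ∀ a b : ZMod 2, a = b ∨ a + 1 = b := by decide
  rcases hz (ng g.1 E.θ) y.2 with h | h
  · refine ⟨γ, ?_⟩
    rw [hx]
    show Multiplicative.ofAdd _ = _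
    congr 1
    exact Prod.ext (funext hg1) h
  · refine ⟨γ * κ, ?_⟩
    rw [map_mul, hΦκ, hx]
    show Multiplicative.ofAdd _ * Multiplicative.ofAdd _ = _
    rw [← ofAdd_add]
    congr 1
    refine Prod.ext ?_ h
    funext r
    show ng g.1 (E.s r) + 0 = y.1 r
    rw [add_zero, hg1]

variable (hP : ∀ q ∈ P, Pq q)

/-- the cubic symbols on `H0` -/
noncomputable def Ψ0 : H0 E3 E →* Multiplicative ((P → ZMod 3) × ZMod 3) :=
  (E3.Ψ hP).comp (Subgroup.inclusion (H0_le E3 E))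

/-- the cubic symbols on `H1` -/
noncomputable def Ψ1 : H1 E3 E →* Multiplicative ((P → ZMod 3) × ZMod 3) :=
  (Ψ0 E3 E hP).comp (Subgroup.inclusion (H1_le E3 E))

theorem three_zero (b : (P → ZMod 3) × ZMod 3) : b + b + b = 0 := by
  have h : ∀ z : ZMod 3, z + z + z = 0 := by decide
  refine Prod.ext ?_ (h _)
  funext q
  exact h _

theorem two_zero (b : (R → ZMod 2) × ZMod 2) : b + b = 0 := by
  have h : ∀ z : ZMod 2, z + z = 0 := by decide
  refine Prod.ext ?_ (h _)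
  funext q
  exact h _

theorem pow4 (g : Gal(L/ℚ)) : (g * g) * (g * g) ∈ H1 E3 E ∨ ¬ g ∈ HH E3.Z := by
  by_cases hg : g ∈ HH E3.Z
  · left
    have hI : (g * g) E.I = E.I := by
      show g (g _) = _
      rcases gal_sqrt g E.hI with h | h
      · rw [h, h]
      · rw [h, map_neg, h, neg_neg]
    have hθ : (g * g) (E.θ ^ 2) = E.θ ^ 2 := by
      show g (g _) = _
      rcases gal_sqrt g E.hθ with h | h
      · rw [h, h]
      · rw [h, map_neg, h, neg_neg]
    have h1 : g * g ∈ H0 E3 E := ⟨(HH E3.Z).mul_mem hg hg, hI⟩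
    have h2 : g * g ∈ H1 E3 E := ⟨h1, hθ⟩
    exact (H1 E3 E).mul_mem h2 h2
  · exact Or.inr hg

theorem surjΨ1 : Function.Surjective (Ψ1 E3 E hP) := by
  intro b
  obtain ⟨g, hg⟩ := E3.surj hP b
  rcases pow4 E3 E g.1 with h | h
  · refine ⟨⟨_, h⟩, ?_⟩
    have h1 : Ψ1 E3 E hP ⟨_, h⟩ = E3.Ψ hP (g * g * (g * g)) := rfl
    rw [h1, map_mul, map_mul, hg]
    have hb3 : b * b * b = 1 := three_zero (Multiplicative.toAdd b)
    rw [← mul_assoc, hb3, one_mul]
  · exact absurd g.2 h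

theorem surjΨ0 : Function.Surjective (Ψ0 E3 E hP) := by
  intro b
  obtain ⟨g, hg⟩ := surjΨ1 E3 E hP b
  exact ⟨Subgroup.inclusion (H1_le E3 E) g, hg⟩

end

/-- the count -/
theorem ratio {G A B : Type} [Group G] [Finite G] [AddCommGroup A] [AddCommGroup B] [Finite A]
    [Finite B] (f : G →* Multiplicative A) (h : G →* Multiplicative B) (hA : ∀ a : A, a + a = 0)
    (hB : ∀ b : B, b + b + b = 0) (hf : Function.Surjective f) (hh : Function.Surjective h)
    (Q : A → Prop) (V : B → Prop) :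
    (Nat.card {g : G // Q (Multiplicative.toAdd (f g)) ∧ V (Multiplicative.toAdd (h g))} : ℝ) /
      (Nat.card G : ℝ) = (Nat.card {a : A // Q a} : ℝ) / Nat.card A *
        ((Nat.card {b : B // V b} : ℝ) / Nat.card B) := by
  have hsur := prod_surj f h hA hB hf hh
  have h1 := Pool.Agent.W401.Cheb.card_fib (f.prod h)
    (fun b => Q (Multiplicative.toAdd b.1) ∧ V (Multiplicative.toAdd b.2)) (fun b _ => hsur b)
  have h2 := Pool.Agent.W401.Cheb.card_fib (f.prod h) (fun _ => True) (fun b _ => hsur b)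
  have h3 : Nat.card {a : G // True} = Nat.card G :=
    Nat.card_congr (Equiv.subtypeUnivEquiv fun _ => trivial)
  have h4 : Nat.card {b : Multiplicative A × Multiplicative B // True} = Nat.card A * Nat.card B := by
    rw [← Nat.card_prod]
    exact Nat.card_congr (Equiv.subtypeUnivEquiv fun _ => trivial)
  have h5 : Nat.card {b : Multiplicative A × Multiplicative B //
      Q (Multiplicative.toAdd b.1) ∧ V (Multiplicative.toAdd b.2)} =
      Nat.card {a : A // Q a} * Nat.card {b : B // V b} := by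
    rw [← Nat.card_prod]
    exact Nat.card_congr
      { toFun := fun x => (⟨x.1.1, x.2.1⟩, ⟨x.1.2, x.2.2⟩)
        invFun := fun x => ⟨(x.1.1, x.2.1), x.1.2, x.2.2⟩
        left_inv := fun x => rfl
        right_inv := fun x => rfl }
  rw [h3, h4] at h2
  rw [h5] at h1
  have e1 : Nat.card {g : G // Q (Multiplicative.toAdd (f g)) ∧ V (Multiplicative.toAdd (h g))} =
      Nat.card {a : G // Q (Multiplicative.toAdd ((f.prod h) a).1) ∧
        V (Multiplicative.toAdd ((f.prod h) a).2)} := rfl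
  rw [e1, h1, h2]
  have hk : 0 < Nat.card (f.prod h).ker := Nat.card_pos
  have hA0 : 0 < Nat.card A := Nat.card_pos
  have hB0 : 0 < Nat.card B := Nat.card_pos
  push_cast
  have hk' : (Nat.card (f.prod h).ker : ℝ) ≠ 0 := by positivity
  have hA' : (Nat.card A : ℝ) ≠ 0 := by positivity
  have hB' : (Nat.card B : ℝ) ≠ 0 := by positivity
  field_simp

end Pool.Agent.U687.JT
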