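import Pool.Agent.U687.JT.Mat
import Pool.Agent.U687.JT.Surj

/-!
# Counting the symbols
-/

set_option autoImplicit false
set_option linter.unusedSectionVars false
set_option linter.style.haveILetI false

open scoped Classical

namespace Pool.Agent.U687.JT

open Finset Matrix
open Pool.Agent.Results.MP_4a9ea6_nt.TwoPartTwistsX49 (Adm mat split nonsq nonfourth)
open Q283.TW (bord exists_diag exists_bord)

/-- counting along a surjective homomorphism -/
theorem ratio_hom {A B : Type} [AddCommGroup A] [AddCommGroup B] [Finite A] [Finite B]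
    (f : A →+ B) (hf : Function.Surjective f) (P : B → Prop) :
    (Nat.card {a : A // P (f a)} : ℝ) / Nat.card A = (Nat.card {b : B // P b} : ℝ) / Nat.card B := by
  have hsur : ∀ b : Multiplicative B, ∃ a, (AddMonoidHom.toMultiplicative f) a = b := by
    intro b
    obtain ⟨a, ha⟩ := hf (Multiplicative.toAdd b)
    exact ⟨Multiplicative.ofAdd a, congrArg Multiplicative.ofAdd ha⟩
  have h1 := Pool.Agent.W401.Cheb.card_fib (AddMonoidHom.toMultiplicative f)
    (fun b => P (Multiplicative.toAdd b)) (fun b _ => hsur b)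
  have h2 := Pool.Agent.W401.Cheb.card_fib (AddMonoidHom.toMultiplicative f)
    (fun _ => True) (fun b _ => hsur b)
  have h3 : Nat.card {a : Multiplicative A // True} = Nat.card A :=
    Nat.card_congr (Equiv.subtypeUnivEquiv fun _ => trivial)
  have h4 : Nat.card {b : Multiplicative B // True} = Nat.card B :=
    Nat.card_congr (Equiv.subtypeUnivEquiv fun _ => trivial)
  have h5 : Nat.card {b : Multiplicative B // P (Multiplicative.toAdd b)} =
      Nat.card {b : B // P b} := rfl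
  have h6 : Nat.card {a : Multiplicative A // P (Multiplicative.toAdd
      ((AddMonoidHom.toMultiplicative f) a))} = Nat.card {a : A // P (f a)} := rfl
  rw [h6, h5] at h1
  rw [h3, h4] at h2
  rw [h1, h2]
  have hk : 0 < Nat.card (AddMonoidHom.toMultiplicative f).ker := Nat.card_pos
  have hB : 0 < Nat.card B := Nat.card_pos
  push_cast
  have hk' : (Nat.card (AddMonoidHom.toMultiplicative f).ker : ℝ) ≠ 0 := by positivity
  have hB' : (Nat.card B : ℝ) ≠ 0 := by positivity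
  field_simp

/-- extension by zero -/
noncomputable def ext2 {R : Finset ℕ} (u : R → ZMod 2) (r : ℕ) : ZMod 2 :=
  if h : r ∈ R then u ⟨r, h⟩ else 0

theorem ext2_of {R : Finset ℕ} (u : R → ZMod 2) {r : ℕ} (h : r ∈ R) : ext2 u r = u ⟨r, h⟩ := by
  unfold ext2
  rw [dif_pos h]

theorem ext2_add {R : Finset ℕ} (u v : R → ZMod 2) (r : ℕ) :
    ext2 (u + v) r = ext2 u r + ext2 v r := by
  unfold ext2
  by_cases h : r ∈ R
  · rw [dif_pos h, dif_pos h, dif_pos h]; rfl
  · rw [dif_neg h, dif_neg h, dif_neg h, add_zero]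

theorem ext2_nr2 {R : Finset ℕ} (p : ℕ) {r : ℕ} (h : r ∈ R) :
    ext2 (fun r : R => nr2 p r) r = nr2 p r := ext2_of _ h

/-- the proportion of the vectors `v` such that `mat D + diagonal v` is nonsingular -/
noncomputable def c0 (D : ℕ) : ℝ :=
  (Nat.card {v : split D → ZMod 2 // (mat D + diagonal v).det ≠ 0} : ℝ) / 2 ^ (split D).card

/-- the proportion of the nonsingular borderings -/
noncomputable def c1 (D : ℕ) : ℝ :=
  (Nat.card {x : (split D → ZMod 2) × ZMod 2 // (bord (mat D) x.1 x.2).det ≠ 0} : ℝ) /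
    2 ^ ((split D).card + 1)

theorem c0_ge (D : ℕ) : (1 / 2 : ℝ) ^ (split D).card ≤ c0 D := by
  unfold c0
  obtain ⟨v, h⟩ := exists_diag (mat D)
  have : Nonempty {v : split D → ZMod 2 // (mat D + diagonal v).det ≠ 0} := ⟨⟨v, h⟩⟩
  have h1 : 0 < Nat.card {v : split D → ZMod 2 // (mat D + diagonal v).det ≠ 0} := Nat.card_pos
  have h2 : (1 : ℝ) ≤ Nat.card {v : split D → ZMod 2 // (mat D + diagonal v).det ≠ 0} := by
    exact_mod_cast h1
  rw [one_div, inv_pow, inv_eq_one_div]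
  gcongr

theorem c1_ge (D : ℕ) : (1 / 2 : ℝ) ^ ((split D).card + 1) ≤ c1 D := by
  unfold c1
  obtain ⟨v, d, h⟩ := exists_bord (mat D)
  have : Nonempty {x : (split D → ZMod 2) × ZMod 2 // (bord (mat D) x.1 x.2).det ≠ 0} :=
    ⟨⟨(v, d), h⟩⟩
  have h1 : 0 < Nat.card {x : (split D → ZMod 2) × ZMod 2 // (bord (mat D) x.1 x.2).det ≠ 0} :=
    Nat.card_pos
  have h2 : (1 : ℝ) ≤ Nat.card {x : (split D → ZMod 2) × ZMod 2 //
      (bord (mat D) x.1 x.2).det ≠ 0} := by
    exact_mod_cast h1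
  rw [one_div, inv_pow, inv_eq_one_div]
  gcongr

theorem split_sub (D : ℕ) : split D ⊆ D.primeFactors := Finset.filter_subset _ _

/-- the restriction to the split prime factors of the members of `𝒟` -/
noncomputable def res (𝒟 : Finset ℕ) (R : Finset ℕ) :
    (R → ZMod 2) →+ ((D : 𝒟) → (split (D : ℕ) → ZMod 2)) where
  toFun u := fun D i => ext2 u i
  map_zero' := by
    funext D i
    unfold ext2
    by_cases h : (i : ℕ) ∈ R
    · rw [dif_pos h]; rfl
    · rw [dif_neg h]; rfl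
  map_add' u v := by
    funext D i
    exact ext2_add u v i

theorem res_surj {𝒟 : Finset ℕ} (hc : ∀ D ∈ 𝒟, ∀ D' ∈ 𝒟, D ≠ D' → Nat.Coprime D D') {R : Finset ℕ}
    (hR : ∀ D ∈ 𝒟, D.primeFactors ⊆ R) : Function.Surjective (res 𝒟 R) := by
  intro w
  have key : ∀ r : ℕ, ∃ a : ZMod 2, ∀ (D : 𝒟) (h : r ∈ split (D : ℕ)), a = w D ⟨r, h⟩ := by
    intro r
    by_cases h : ∃ D : 𝒟, r ∈ split (D : ℕ)
    · obtain ⟨D, h⟩ := h
      refine ⟨w D ⟨r, h⟩, fun D' h' => ?_⟩
      have hDD : D = D' := by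
        by_contra hne
        have h1 := hc D D.2 D' D'.2 (fun h => hne (Subtype.ext h))
        have h2 := split_sub _ h
        have h3 := split_sub _ h'
        have h4 : r ∣ Nat.gcd (D : ℕ) D' :=
          Nat.dvd_gcd (Nat.dvd_of_mem_primeFactors h2) (Nat.dvd_of_mem_primeFactors h3)
        rw [h1] at h4
        exact (Nat.prime_of_mem_primeFactors h2).one_lt.ne' (Nat.dvd_one.1 h4)
      subst hDD
      rfl
    · exact ⟨0, fun D h' => absurd ⟨D, h'⟩ h⟩
  choose a ha using key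
  refine ⟨fun r => a r, ?_⟩
  funext D i
  show ext2 (fun r : R => a r) (i : ℕ) = w D i
  rw [ext2_of _ (hR D D.2 (split_sub _ i.2))]
  exact ha i D i.2

theorem card_zmod2_fun (S : Finset ℕ) : Nat.card (S → ZMod 2) = 2 ^ S.card := by
  rw [Nat.card_fun]
  simp

/-- **inert primes: independence** -/
theorem ratio_inert {𝒟 : Finset ℕ} (hc : ∀ D ∈ 𝒟, ∀ D' ∈ 𝒟, D ≠ D' → Nat.Coprime D D') {R : Finset ℕ}
    (hR : ∀ D ∈ 𝒟, D.primeFactors ⊆ R) :
    (Nat.card {u : R → ZMod 2 // ∀ D ∈ 𝒟,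
      (mat D + diagonal fun i : split D => ext2 u i).det ≠ 0} : ℝ) / 2 ^ R.card =
      ∏ D ∈ 𝒟, c0 D := by
  have h := ratio_hom (res 𝒟 R) (res_surj hc hR)
    (fun w => ∀ D : 𝒟, (mat (D : ℕ) + diagonal (w D)).det ≠ 0)
  have e1 : Nat.card {u : R → ZMod 2 // ∀ D ∈ 𝒟,
      (mat D + diagonal fun i : split D => ext2 u i).det ≠ 0} =
      Nat.card {u : R → ZMod 2 // ∀ D : 𝒟, (mat (D : ℕ) + diagonal (res 𝒟 R u D)).det ≠ 0} :=
    Nat.card_congr (Equiv.subtypeEquivRight fun u =>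
      ⟨fun h D => h D D.2, fun h D hD => h ⟨D, hD⟩⟩)
  have e2 : Nat.card {w : (D : 𝒟) → (split (D : ℕ) → ZMod 2) //
      ∀ D : 𝒟, (mat (D : ℕ) + diagonal (w D)).det ≠ 0} =
      ∏ D : 𝒟, Nat.card {v : split (D : ℕ) → ZMod 2 // (mat (D : ℕ) + diagonal v).det ≠ 0} := by
    rw [← Nat.card_pi]
    exact Nat.card_congr (Equiv.subtypePiEquivPi (p := fun (D : 𝒟) (v : split (D : ℕ) → ZMod 2) =>
      (mat (D : ℕ) + diagonal v).det ≠ 0))
  have e3 : Nat.card ((D : 𝒟) → (split (D : ℕ) → ZMod 2)) = ∏ D : 𝒟, 2 ^ (split (D : ℕ)).card := by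
    rw [Nat.card_pi]
    exact Finset.prod_congr rfl fun D _ => card_zmod2_fun _
  rw [e2, e3, card_zmod2_fun] at h
  rw [e1]
  push_cast at h
  rw [h, ← Finset.prod_div_distrib]
  exact Finset.prod_coe_sort 𝒟 c0

/-- the restriction and the corner -/
noncomputable def res1 (D : ℕ) (R : Finset ℕ) :
    ((R → ZMod 2) × ZMod 2) →+ ((split D → ZMod 2) × ZMod 2) where
  toFun x := (fun i => ext2 x.1 i, x.2 + ∑ l ∈ D.primeFactors, ext2 x.1 l)
  map_zero' := by
    have h0 : ∀ r : ℕ, ext2 (0 : R → ZMod 2) r = 0 := by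
      intro r
      unfold ext2
      by_cases h : r ∈ R
      · rw [dif_pos h]; rfl
      · rw [dif_neg h]
    refine Prod.ext ?_ ?_
    · funext i
      exact h0 i
    · show (0 : ZMod 2) + ∑ l ∈ D.primeFactors, ext2 (0 : R → ZMod 2) l = 0
      rw [Finset.sum_eq_zero fun l _ => h0 l, add_zero]
  map_add' x y := by
    refine Prod.ext ?_ ?_
    · funext i
      exact ext2_add x.1 y.1 i
    · show (x.2 + y.2) + ∑ l ∈ D.primeFactors, ext2 (x.1 + y.1) l =
        (x.2 + ∑ l ∈ D.primeFactors, ext2 x.1 l) + (y.2 + ∑ l ∈ D.primeFactors, ext2 y.1 l)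
      rw [Finset.sum_congr rfl fun l _ => ext2_add x.1 y.1 l, Finset.sum_add_distrib]
      ring

theorem res1_surj {D : ℕ} {R : Finset ℕ} (hR : D.primeFactors ⊆ R) :
    Function.Surjective (res1 D R) := by
  rintro ⟨v, d⟩
  set u : R → ZMod 2 := fun r => if h : (r : ℕ) ∈ split D then v ⟨r, h⟩ else 0 with hu
  refine ⟨(u, d - ∑ l ∈ D.primeFactors, ext2 u l), ?_⟩
  refine Prod.ext ?_ ?_
  · funext i
    show ext2 u i = v i
    rw [ext2_of _ (hR (split_sub _ i.2)), hu]
    simp only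
    rw [dif_pos i.2]
  · show d - _ + _ = d
    rw [sub_add_cancel]

/-- **split primes** -/
theorem ratio_split {D : ℕ} {R : Finset ℕ} (hR : D.primeFactors ⊆ R) :
    (Nat.card {x : (R → ZMod 2) × ZMod 2 // (bord (mat D) (fun i : split D => ext2 x.1 i)
      (x.2 + ∑ l ∈ D.primeFactors, ext2 x.1 l)).det ≠ 0} : ℝ) / 2 ^ (R.card + 1) = c1 D := by
  have h := ratio_hom (res1 D R) (res1_surj hR) (fun x => (bord (mat D) x.1 x.2).det ≠ 0)
  have e3 : ∀ S : Finset ℕ, Nat.card ((S → ZMod 2) × ZMod 2) = 2 ^ (S.card + 1) := by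
    intro S
    rw [Nat.card_prod, card_zmod2_fun]
    simp [pow_succ]
  rw [e3, e3] at h
  push_cast at h
  exact h

end Pool.Agent.U687.JT
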