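import Pool.Agent.U687.JT.Law

/-!
# The joint law for inert and for split primes
-/

set_option autoImplicit false
set_option linter.unusedSectionVars false
set_option linter.style.haveILetI false

open scoped Classical

namespace Pool.Agent.U687.JT

open Finset Filter Topology NumberField
open Pool.Agent.Y692.QS (Ei w nr)
open Pool.Agent.Y715.T.Rec (cs)
open Pool.Agent.Y715.T.RecG (Pq)
open Q283.TQ (Bs)
open Q283.TW (ng)
open Q283.TC (Dat frob_z HH)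
open Pool.Agent.W401.Cheb (HasFrob)
open Pool.Agent.U687.PT (PP pq_PP)

theorem w_not {D' : ℕ} (hD : Bs D') : w ∉ PP D' := by
  intro h
  apply (pq_PP hD w h).prime.not_isUnit
  rw [Pool.Agent.Y692.QS.isUnit_iff]; decide

/-- the product of the bad primes -/
def bad (R : Finset ℕ) (N1 : ℕ) : ℕ := 14 * (∏ r ∈ R, r) * N1

theorem bad_spec {R : Finset ℕ} {N1 p : ℕ} (h : ¬ p ∣ bad R N1) :
    p ≠ 2 ∧ p ≠ 7 ∧ (∀ r ∈ R, ¬ p ∣ r) ∧ ¬ p ∣ N1 := by
  unfold bad at h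
  refine ⟨?_, ?_, ?_, fun h1 => h (h1.mul_left _)⟩
  · rintro rfl
    exact h (((by norm_num : 2 ∣ 14).mul_right _).mul_right _)
  · rintro rfl
    exact h (((by norm_num : 7 ∣ 14).mul_right _).mul_right _)
  · intro r hr hd
    exact h (((hd.trans (Finset.dvd_prod_of_mem (fun r => r) hr)).mul_left _).mul_right _)

theorem bad_pos {R : Finset ℕ} {N1 : ℕ} (hR : ∀ r ∈ R, r.Prime ∧ r % 4 = 1) (h : 0 < N1) :
    0 < bad R N1 := by
  unfold bad
  have : 0 < ∏ r ∈ R, r := Finset.prod_pos fun r hr => (hR r hr).1.pos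
  positivity

theorem card_fst (R : Finset ℕ) (U : (R → ZMod 2) → Prop) :
    Nat.card {a : (R → ZMod 2) × ZMod 2 // a.2 = 1 ∧ U a.1} = Nat.card {u : R → ZMod 2 // U u} :=
  Nat.card_congr
    { toFun := fun z => ⟨z.1.1, z.2.2⟩
      invFun := fun x => ⟨(x.1, 1), rfl, x.2⟩
      left_inv := fun z => Subtype.ext (Prod.ext rfl z.2.1.symm)
      right_inv := fun _ => rfl }

theorem card_fst1 (R : Finset ℕ) :
    Nat.card {a : (R → ZMod 2) × ZMod 2 // a.2 = 1} = 2 ^ R.card := by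
  have e1 : Nat.card (R → ZMod 2) = 2 ^ R.card := by
    rw [Nat.card_fun]
    simp
  rw [← e1]
  exact Nat.card_congr
    { toFun := fun z => z.1.1
      invFun := fun x => ⟨(x, 1), rfl⟩
      left_inv := fun z => Subtype.ext (Prod.ext rfl z.2.symm)
      right_inv := fun _ => rfl }

section
variable {D' : ℕ} (hD : Bs D') {j : ℕ} (hj : j = 1 ∨ j = 4 ∨ j = 7) (R : Finset ℕ)
  (hR : ∀ r ∈ R, r.Prime ∧ r % 4 = 1) (N1 : ℕ) (hN1 : 0 < N1)
  (V : (PP D' → ZMod 3) → Prop) (T : ℕ → Prop)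
  (hT : ∀ (p : ℕ) [Fact p.Prime], ¬ p ∣ N1 → p % 9 = j → p % 3 = 1 → ∀ π : Ei, Pq π → nr π = p →
      (V (fun q : PP D' => cs π q) ↔ T p))

include hD hj hR hN1 hT

/-- **inert primes** -/
theorem law_inert (U : (R → ZMod 2) → Prop) (G : ℕ → Prop)
    (hG : ∀ (p : ℕ) [Fact p.Prime], ¬ p ∣ bad R N1 → p % 4 = 1 → ¬ IsSquare (-7 : ZMod p) →
      (U (fun r : R => nr2 p r) ↔ G p)) :
    Tendsto (fun X : ℕ =>
      (((Icc 1 X).filter fun l => l.Prime ∧ l % 9 = j ∧ (l % 4 = 1 ∧ ¬ IsSquare (-7 : ZMod l)) ∧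
        G l ∧ T l).card : ℝ) /
        (((Icc 1 X).filter fun l => l.Prime ∧ l % 9 = j ∧
          (l % 4 = 1 ∧ ¬ IsSquare (-7 : ZMod l))).card : ℝ)) atTop
      (𝓝 ((Nat.card {u : R → ZMod 2 // U u} : ℝ) / 2 ^ R.card *
        ((Nat.card {x : PP D' → ZMod 3 // V x} : ℝ) / 3 ^ (PP D').card))) := by
  have hR0 : ∀ r ∈ R, r ≠ 0 := fun r hr => (hR r hr).1.ne_zero
  obtain ⟨L, hL, hN, hGal, ⟨E3, E⟩⟩ := exists_dat (PP D') (w_not hD) R
  have h := law2 E3 hD hj (H0 E3 E) (H0_le E3 E) (A := (R → ZMod 2) × ZMod 2) two_zero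
    (Φ0 E3 E hR0) (surj0 E3 E hR0 hR) (surjΨ0 E3 E (pq_PP hD)) (fun a => a.2 = 1)
    (fun a => U a.1) (fun l => l % 4 = 1 ∧ ¬ IsSquare (-7 : ZMod l)) G (bad R N1)
    (bad_pos hR hN1) (by
      intro p hp hpN hp3 φ g hφ
      obtain ⟨h2, h7, -, -⟩ := bad_spec hpN
      have h3 : p ≠ 3 := by rintro rfl; norm_num at hp3
      constructor
      · rintro ⟨hg, hq⟩
        have hq' : ng g (E.θ ^ 2) = 1 := hq
        refine ⟨(E.frob_I hφ h2).1 hg.2, ?_⟩
        rw [← E.frob_7 hφ h2 h7]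
        intro h
        unfold ng at hq'
        rw [if_pos h] at hq'
        exact zero_ne_one hq'
      · rintro ⟨h4, h5⟩
        refine ⟨⟨(frob_z E3.hZ hφ h3).2 hp3, (E.frob_I hφ h2).2 h4⟩, ?_⟩
        show ng g (E.θ ^ 2) = 1
        unfold ng
        rw [if_neg fun h => h5 ((E.frob_7 hφ h2 h7).1 h)]) (by
      intro p hp hpN hp3 φ g hφ hg hq
      obtain ⟨h2, h7, hr, -⟩ := bad_spec hpN
      have hq' : ng g (E.θ ^ 2) = 1 := hq
      have h4 : p % 4 = 1 := (E.frob_I hφ h2).1 hg.2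
      have h5 : ¬ IsSquare (-7 : ZMod p) := by
        rw [← E.frob_7 hφ h2 h7]
        intro h
        unfold ng at hq'
        rw [if_pos h] at hq'
        exact zero_ne_one hq'
      rw [← hG p hpN h4 h5]
      have e : (fun r : R => ng g (E.s r)) = fun r : R => nr2 p r := by
        funext r
        exact E.frob_s hφ h2 r.2 (hr r r.2)
      show U (fun r : R => ng g (E.s r)) ↔ _
      rw [e]) (by
      have : Nonempty {a : (R → ZMod 2) × ZMod 2 // a.2 = 1} := ⟨⟨(0, 1), rfl⟩⟩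
      exact Nat.card_pos) V T (fun p _ hpN h9 h3 π hπ hn => hT p (bad_spec hpN).2.2.2 h9 h3 π hπ hn)
  rw [card_fst, card_fst1] at h
  push_cast at h
  convert h

/-- **split primes** -/
theorem law_split (U : (R → ZMod 2) × ZMod 2 → Prop) (G : ℕ → Prop)
    (hG : ∀ (p : ℕ) [Fact p.Prime], ¬ p ∣ bad R N1 → p % 4 = 1 → IsSquare (-7 : ZMod p) →
      (U (fun r : R => nr2 p r, n47 p) ↔ G p)) :
    Tendsto (fun X : ℕ =>
      (((Icc 1 X).filter fun l => l.Prime ∧ l % 9 = j ∧ (l % 4 = 1 ∧ IsSquare (-7 : ZMod l)) ∧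
        G l ∧ T l).card : ℝ) /
        (((Icc 1 X).filter fun l => l.Prime ∧ l % 9 = j ∧
          (l % 4 = 1 ∧ IsSquare (-7 : ZMod l))).card : ℝ)) atTop
      (𝓝 ((Nat.card {u : (R → ZMod 2) × ZMod 2 // U u} : ℝ) / 2 ^ (R.card + 1) *
        ((Nat.card {x : PP D' → ZMod 3 // V x} : ℝ) / 3 ^ (PP D').card))) := by
  have hR0 : ∀ r ∈ R, r ≠ 0 := fun r hr => (hR r hr).1.ne_zero
  obtain ⟨L, hL, hN, hGal, ⟨E3, E⟩⟩ := exists_dat (PP D') (w_not hD) R
  have h := law2 E3 hD hj (H1 E3 E) ((H1_le E3 E).trans (H0_le E3 E))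
    (A := (R → ZMod 2) × ZMod 2) two_zero
    (Φ1 E3 E hR0) (surj1 E3 E hR0 hR) (surjΨ1 E3 E (pq_PP hD)) (fun _ => True)
    U (fun l => l % 4 = 1 ∧ IsSquare (-7 : ZMod l)) G (bad R N1)
    (bad_pos hR hN1) (by
      intro p hp hpN hp3 φ g hφ
      obtain ⟨h2, h7, -, -⟩ := bad_spec hpN
      have h3 : p ≠ 3 := by rintro rfl; norm_num at hp3
      constructor
      · rintro ⟨hg, -⟩
        exact ⟨(E.frob_I hφ h2).1 hg.1.2, (E.frob_7 hφ h2 h7).1 hg.2⟩
      · rintro ⟨h4, h5⟩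
        exact ⟨⟨⟨(frob_z E3.hZ hφ h3).2 hp3, (E.frob_I hφ h2).2 h4⟩,
          (E.frob_7 hφ h2 h7).2 h5⟩, trivial⟩) (by
      intro p hp hpN hp3 φ g hφ hg _
      obtain ⟨h2, h7, hr, -⟩ := bad_spec hpN
      have h4 : p % 4 = 1 := (E.frob_I hφ h2).1 hg.1.2
      have h5 : IsSquare (-7 : ZMod p) := (E.frob_7 hφ h2 h7).1 hg.2
      rw [← hG p hpN h4 h5]
      have e : (fun r : R => ng g (E.s r)) = fun r : R => nr2 p r := by
        funext r
        exact E.frob_s hφ h2 r.2 (hr r r.2)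
      have e2 : ng g E.θ = n47 p := E.frob_n47 hφ h2 h7 h4 hg.2
      show U (fun r : R => ng g (E.s r), ng g E.θ) ↔ _
      rw [e, e2]) (by
      have : Nonempty {a : (R → ZMod 2) × ZMod 2 // True} := ⟨⟨(0, 1), trivial⟩⟩
      exact Nat.card_pos) V T (fun p _ hpN h9 h3 π hπ hn => hT p (bad_spec hpN).2.2.2 h9 h3 π hπ hn)
  have c1 : Nat.card {a : (R → ZMod 2) × ZMod 2 // True ∧ U a} =
      Nat.card {a : (R → ZMod 2) × ZMod 2 // U a} :=
    Nat.card_congr (Equiv.subtypeEquivRight fun a => ⟨fun h => h.2, fun h => ⟨trivial, h⟩⟩)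
  have c0 : Nat.card {a : (R → ZMod 2) × ZMod 2 // True} = 2 ^ (R.card + 1) := by
    have e1 : Nat.card ((R → ZMod 2) × ZMod 2) = 2 ^ (R.card + 1) := by
      rw [Nat.card_prod, Nat.card_fun]
      simp [pow_succ]
    rw [← e1]
    exact Nat.card_congr (Equiv.subtypeUnivEquiv fun _ => trivial)
  rw [c1, c0] at h
  push_cast at h
  convert h

end

end Pool.Agent.U687.JT
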