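import Pool.Agent.U687.JT.Main

/-!
# The joint law of the quadratic and quartic symbols of the primes `1` modulo `4`
-/

set_option autoImplicit false
set_option linter.unusedSectionVars false
set_option linter.style.haveILetI false

open scoped Classical

namespace Pool.Agent.U687.JT

open Finset Filter Topology NumberField
open Pool.Agent.Y692.QS (Ei w)
open Q283.TW (ng ng_mul gal_sqrt dens_of)
open Q283.TC (Dat)
open Pool.Agent.W401.Cheb (HasFrob M pr mem_pr M_congr)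

section
variable {L : Type} [Field L] [NumberField L] [IsGalois ℚ L] {P : Finset Ei} {R : Finset ℕ}
  (E3 : Dat L P) (E : QDat L R)

/-- the automorphisms fixing `I` -/
def K0 : Subgroup Gal(L/ℚ) where
  carrier := {g | g E.I = E.I}
  mul_mem' := by
    intro a b a2 b2
    show a (b _) = _
    rw [show b E.I = E.I from b2, show a E.I = E.I from a2]
  one_mem' := rfl
  inv_mem' := by
    intro a a2
    have := congrArg (a⁻¹ : Gal(L/ℚ)) (show a E.I = E.I from a2)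
    rw [← AlgEquiv.mul_apply, inv_mul_cancel, AlgEquiv.one_apply] at this
    exact this.symm

theorem mem_K0 {g : Gal(L/ℚ)} : g ∈ K0 E ↔ g E.I = E.I := Iff.rfl

/-- the automorphisms fixing `I` and `θ ^ 2` -/
def K1 : Subgroup Gal(L/ℚ) where
  carrier := {g | g ∈ K0 E ∧ g (E.θ ^ 2) = E.θ ^ 2}
  mul_mem' := by
    rintro a b ⟨a1, a2⟩ ⟨b1, b2⟩
    refine ⟨(K0 E).mul_mem a1 b1, ?_⟩
    show a (b _) = _
    rw [b2, a2]
  one_mem' := ⟨(K0 E).one_mem, rfl⟩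
  inv_mem' := by
    rintro a ⟨a1, a2⟩
    refine ⟨(K0 E).inv_mem a1, ?_⟩
    have := congrArg (a⁻¹ : Gal(L/ℚ)) a2
    rw [← AlgEquiv.mul_apply, inv_mul_cancel, AlgEquiv.one_apply] at this
    exact this.symm

variable (hR : ∀ r ∈ R, r ≠ 0)

/-- the symbols, inert case -/
noncomputable def Θ0 : K0 E →* Multiplicative ((R → ZMod 2) × ZMod 2) where
  toFun g := Multiplicative.ofAdd (fun r : R => ng g.1 (E.s r), ng g.1 (E.θ ^ 2))
  map_one' := by
    rw [← ofAdd_zero]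
    congr 1
    refine Prod.ext ?_ ?_
    · funext r
      exact ng_one _
    · exact ng_one _
  map_mul' g h := by
    rw [← ofAdd_add]
    congr 1
    refine Prod.ext ?_ ?_
    · funext r
      exact ng_mul _ _ (E.s0 hR r.2) (gal_sqrt g.1 (E.hs r r.2)) (gal_sqrt h.1 (E.hs r r.2))
    · exact ng_mul _ _ (pow_ne_zero 2 E.theta0) (gal_sqrt g.1 E.hθ) (gal_sqrt h.1 E.hθ)

/-- the symbols, split case -/
noncomputable def Θ1 : K1 E →* Multiplicative ((R → ZMod 2) × ZMod 2) where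
  toFun g := Multiplicative.ofAdd (fun r : R => ng g.1 (E.s r), ng g.1 E.θ)
  map_one' := by
    rw [← ofAdd_zero]
    congr 1
    refine Prod.ext ?_ ?_
    · funext r
      exact ng_one _
    · exact ng_one _
  map_mul' g h := by
    rw [← ofAdd_add]
    congr 1
    refine Prod.ext ?_ ?_
    · funext r
      exact ng_mul _ _ (E.s0 hR r.2) (gal_sqrt g.1 (E.hs r r.2)) (gal_sqrt h.1 (E.hs r r.2))
    · exact ng_mul _ _ E.theta0 (E.gal_theta g.1 g.2.2) (E.gal_theta h.1 h.2.2)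

variable (hR' : ∀ r ∈ R, r.Prime ∧ r % 4 = 1)

include E3 hR' in
theorem surjΘ0 : Function.Surjective (Θ0 E hR) := by
  intro x
  obtain ⟨g, hg⟩ := surj0 E3 E hR hR' x
  exact ⟨⟨g.1, g.2.2⟩, hg⟩

include E3 hR' in
theorem surjΘ1 : Function.Surjective (Θ1 E hR) := by
  intro x
  obtain ⟨g, hg⟩ := surj1 E3 E hR hR' x
  exact ⟨⟨g.1, g.2.1.2, g.2.2⟩, hg⟩

/-- the density for one set -/
theorem dens_gen (H : Subgroup Gal(L/ℚ)) {A : Type} [AddCommGroup A] [Finite A]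
    (f : H →* Multiplicative A) (hf : Function.Surjective f) (Q : A → Prop) (T : ℕ → Prop)
    (N0 : ℕ) (hN0 : 0 < N0)
    (hT : ∀ (p : ℕ) [Fact p.Prime], ¬ p ∣ N0 →
      ∀ (φ : 𝓞 L →+* AlgebraicClosure (ZMod p)) (g : Gal(L/ℚ)), HasFrob p φ g →
        (T p ↔ ∃ h : g ∈ H, Q (Multiplicative.toAdd (f ⟨g, h⟩)))) :
    Tendsto (M fun p => if T p then 1 else 0) atTop
      (𝓝 ((Nat.card H : ℝ) / (Nat.card Gal(L/ℚ) : ℝ) *
        ((Nat.card {a : A // Q a} : ℝ) / Nat.card A))) := by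
  have d := dens_of L ({g | ∃ h : g ∈ H, Q (Multiplicative.toAdd (f ⟨g, h⟩))} : Set Gal(L/ℚ)) T N0
    hN0 (fun p _ hp φ g hφ => hT p hp φ g hφ)
  have h1 := Pool.Agent.W401.Cheb.card_fib f
    (fun b => Q (Multiplicative.toAdd b)) (fun b _ => hf b)
  have h2 := Pool.Agent.W401.Cheb.card_fib f (fun _ => True) (fun b _ => hf b)
  have h3 : Nat.card {a : H // True} = Nat.card H :=
    Nat.card_congr (Equiv.subtypeUnivEquiv fun _ => trivial)
  have h4 : Nat.card {b : Multiplicative A // True} = Nat.card A :=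
    Nat.card_congr (Equiv.subtypeUnivEquiv fun _ => trivial)
  have h5 : Nat.card {b : Multiplicative A // Q (Multiplicative.toAdd b)} =
      Nat.card {b : A // Q b} := rfl
  have h6 : Nat.card ({g | ∃ h : g ∈ H, Q (Multiplicative.toAdd (f ⟨g, h⟩))} : Set Gal(L/ℚ)) =
      Nat.card {g : H // Q (Multiplicative.toAdd (f g))} :=
    Nat.card_congr
      { toFun := fun x => ⟨⟨x.1, x.2.1⟩, x.2.2⟩
        invFun := fun x => ⟨x.1.1, x.1.2, x.2⟩
        left_inv := fun _ => rfl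
        right_inv := fun _ => rfl }
  rw [h3, h4] at h2
  rw [h5] at h1
  rw [h6, h1] at d
  have hk : 0 < Nat.card f.ker := Nat.card_pos
  have hA : 0 < Nat.card A := Nat.card_pos
  have hk' : (Nat.card f.ker : ℝ) ≠ 0 := by positivity
  have hA' : (Nat.card A : ℝ) ≠ 0 := by positivity
  have e : ((Nat.card f.ker * Nat.card {b : A // Q b} : ℕ) : ℝ) / Nat.card Gal(L/ℚ) =
      (Nat.card H : ℝ) / (Nat.card Gal(L/ℚ) : ℝ) * ((Nat.card {a : A // Q a} : ℝ) / Nat.card A) := by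
    rw [h2]
    push_cast
    field_simp
  rw [e] at d
  exact d

end

theorem sum_one (C : ℕ → Prop) [DecidablePred C] (X : ℕ) : ∑ p ∈ pr X, (if C p then (1 : ℝ) else 0) =
    (((Icc 1 X).filter fun l => l.Prime ∧ C l).card : ℝ) := by
  rw [← Finset.sum_filter, Finset.sum_const, nsmul_eq_mul, mul_one]
  congr 2
  ext l
  rw [Finset.mem_filter, Finset.mem_filter, mem_pr, Finset.mem_Icc]
  constructor
  · rintro ⟨⟨h1, h2⟩, h3⟩
    exact ⟨⟨h2.pos, h1⟩, h2, h3⟩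
  · rintro ⟨⟨h1, h2⟩, h3, h4⟩
    exact ⟨⟨h2, h3⟩, h4⟩

theorem ratio_lim {C C' : ℕ → Prop} {a b : ℝ} (hb : b ≠ 0)
    (h1 : Tendsto (M fun p => if C p then (1 : ℝ) else 0) atTop (𝓝 a))
    (h0 : Tendsto (M fun p => if C' p then (1 : ℝ) else 0) atTop (𝓝 b)) :
    Tendsto (fun X : ℕ => (((Icc 1 X).filter fun l => l.Prime ∧ C l).card : ℝ) /
      (((Icc 1 X).filter fun l => l.Prime ∧ C' l).card : ℝ)) atTop (𝓝 (a / b)) := by
  refine (h1.div h0 hb).congr' ?_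
  filter_upwards [eventually_ge_atTop 2] with X hX
  have hpc : (Nat.primeCounting X : ℝ) ≠ 0 := by
    have : 0 < Nat.primeCounting X := by
      have h := Nat.monotone_primeCounting hX
      have h2 : Nat.primeCounting 2 = 1 := by decide
      omega
    positivity
  show M _ X / M _ X = _
  unfold M
  rw [div_div_div_cancel_right₀ hpc]
  exact congrArg₂ (· / ·) (sum_one C X) (sum_one C' X)

section
variable (R : Finset ℕ) (hR : ∀ r ∈ R, r.Prime ∧ r % 4 = 1) (N1 : ℕ) (hN1 : 0 < N1)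

include hR hN1

/-- **inert primes** -/
theorem quad_inert (U : (R → ZMod 2) → Prop) (G : ℕ → Prop)
    (hG : ∀ (p : ℕ) [Fact p.Prime], ¬ p ∣ bad R N1 → p % 4 = 1 → ¬ IsSquare (-7 : ZMod p) →
      (U (fun r : R => nr2 p r) ↔ G p)) :
    Tendsto (fun X : ℕ =>
      (((Icc 1 X).filter fun l => l.Prime ∧ l % 4 = 1 ∧ ¬ IsSquare (-7 : ZMod l) ∧ G l).card : ℝ) /
        (((Icc 1 X).filter fun l => l.Prime ∧ l % 4 = 1 ∧ ¬ IsSquare (-7 : ZMod l)).card : ℝ)) atTop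
      (𝓝 ((Nat.card {u : R → ZMod 2 // U u} : ℝ) / 2 ^ R.card)) := by
  have hR0 : ∀ r ∈ R, r ≠ 0 := fun r hr => (hR r hr).1.ne_zero
  obtain ⟨L, hL, hN, hGal, ⟨E3, E⟩⟩ := exists_dat ∅ (by simp) R
  have hK : ∀ (p : ℕ) [Fact p.Prime], ¬ p ∣ bad R N1 →
      ∀ (φ : 𝓞 L →+* AlgebraicClosure (ZMod p)) (g : Gal(L/ℚ)), HasFrob p φ g →
        ((p % 4 = 1 ∧ ¬ IsSquare (-7 : ZMod p)) ↔ ∃ _ : g ∈ K0 E, ng g (E.θ ^ 2) = 1) := by
    intro p hp hpN φ g hφ
    obtain ⟨h2, h7, -, -⟩ := bad_spec hpN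
    constructor
    · rintro ⟨h4, h5⟩
      refine ⟨(E.frob_I hφ h2).2 h4, ?_⟩
      unfold ng
      rw [if_neg fun h => h5 ((E.frob_7 hφ h2 h7).1 h)]
    · rintro ⟨hg, hq'⟩
      refine ⟨(E.frob_I hφ h2).1 hg, ?_⟩
      rw [← E.frob_7 hφ h2 h7]
      intro h
      unfold ng at hq'
      rw [if_pos h] at hq'
      exact zero_ne_one hq'
  have hs := surjΘ0 E3 E hR0 hR
  have d1 := dens_gen (K0 E) (A := (R → ZMod 2) × ZMod 2) (Θ0 E hR0) hs
    (fun a => a.2 = 1 ∧ U a.1) (fun p => p % 4 = 1 ∧ ¬ IsSquare (-7 : ZMod p) ∧ G p) (bad R N1)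
    (bad_pos hR hN1) (by
      intro p hp hpN φ g hφ
      obtain ⟨h2, h7, hr, -⟩ := bad_spec hpN
      have hk := hK p hpN φ g hφ
      have e : (fun r : R => ng g (E.s r)) = fun r : R => nr2 p r := by
        funext r
        exact E.frob_s hφ h2 r.2 (hr r r.2)
      constructor
      · rintro ⟨h4, h5, h6⟩
        obtain ⟨hg, hq⟩ := hk.1 ⟨h4, h5⟩
        refine ⟨hg, hq, ?_⟩
        show U (fun r : R => ng g (E.s r))
        rw [e]
        exact (hG p hpN h4 h5).2 h6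
      · rintro ⟨hg, hq, hu⟩
        obtain ⟨h4, h5⟩ := hk.2 ⟨hg, hq⟩
        refine ⟨h4, h5, (hG p hpN h4 h5).1 ?_⟩
        rw [← e]
        exact hu)
  have d0 := dens_gen (K0 E) (A := (R → ZMod 2) × ZMod 2) (Θ0 E hR0) hs
    (fun a => a.2 = 1) (fun p => p % 4 = 1 ∧ ¬ IsSquare (-7 : ZMod p)) (bad R N1)
    (bad_pos hR hN1) (fun p _ hpN φ g hφ => hK p hpN φ g hφ)
  rw [card_fst] at d1
  rw [card_fst1] at d0
  have hH : 0 < Nat.card (K0 E) := Nat.card_pos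
  have hGa : 0 < Nat.card Gal(L/ℚ) := Nat.card_pos
  have hA : 0 < Nat.card ((R → ZMod 2) × ZMod 2) := Nat.card_pos
  have h := ratio_lim (by positivity) d1 d0
  have e : (Nat.card (K0 E) : ℝ) / (Nat.card Gal(L/ℚ) : ℝ) *
      ((Nat.card {u : R → ZMod 2 // U u} : ℝ) / Nat.card ((R → ZMod 2) × ZMod 2)) /
      ((Nat.card (K0 E) : ℝ) / (Nat.card Gal(L/ℚ) : ℝ) *
      (((2 ^ R.card : ℕ) : ℝ) / Nat.card ((R → ZMod 2) × ZMod 2))) =
      (Nat.card {u : R → ZMod 2 // U u} : ℝ) / 2 ^ R.card := by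
    push_cast
    field_simp
  rw [e] at h
  convert h

/-- **split primes** -/
theorem quad_split (U : (R → ZMod 2) × ZMod 2 → Prop) (G : ℕ → Prop)
    (hG : ∀ (p : ℕ) [Fact p.Prime], ¬ p ∣ bad R N1 → p % 4 = 1 → IsSquare (-7 : ZMod p) →
      (U (fun r : R => nr2 p r, n47 p) ↔ G p)) :
    Tendsto (fun X : ℕ =>
      (((Icc 1 X).filter fun l => l.Prime ∧ l % 4 = 1 ∧ IsSquare (-7 : ZMod l) ∧ G l).card : ℝ) /
        (((Icc 1 X).filter fun l => l.Prime ∧ l % 4 = 1 ∧ IsSquare (-7 : ZMod l)).card : ℝ)) atTop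
      (𝓝 ((Nat.card {u : (R → ZMod 2) × ZMod 2 // U u} : ℝ) / 2 ^ (R.card + 1))) := by
  have hR0 : ∀ r ∈ R, r ≠ 0 := fun r hr => (hR r hr).1.ne_zero
  obtain ⟨L, hL, hN, hGal, ⟨E3, E⟩⟩ := exists_dat ∅ (by simp) R
  have hs := surjΘ1 E3 E hR0 hR
  have d1 := dens_gen (K1 E) (A := (R → ZMod 2) × ZMod 2) (Θ1 E hR0) hs
    U (fun p => p % 4 = 1 ∧ IsSquare (-7 : ZMod p) ∧ G p) (bad R N1)
    (bad_pos hR hN1) (by
      intro p hp hpN φ g hφ
      obtain ⟨h2, h7, hr, -⟩ := bad_spec hpN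
      have e : (fun r : R => ng g (E.s r)) = fun r : R => nr2 p r := by
        funext r
        exact E.frob_s hφ h2 r.2 (hr r r.2)
      constructor
      · rintro ⟨h4, h5, h6⟩
        have hg7 := (E.frob_7 hφ h2 h7).2 h5
        refine ⟨⟨(E.frob_I hφ h2).2 h4, hg7⟩, ?_⟩
        show U (fun r : R => ng g (E.s r), ng g E.θ)
        rw [e, E.frob_n47 hφ h2 h7 h4 hg7]
        exact (hG p hpN h4 h5).2 h6
      · rintro ⟨hg, hu⟩
        have h4 := (E.frob_I hφ h2).1 hg.1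
        have h5 := (E.frob_7 hφ h2 h7).1 hg.2
        refine ⟨h4, h5, (hG p hpN h4 h5).1 ?_⟩
        rw [← e, ← E.frob_n47 hφ h2 h7 h4 hg.2]
        exact hu)
  have d0 := dens_gen (K1 E) (A := (R → ZMod 2) × ZMod 2) (Θ1 E hR0) hs
    (fun _ => True) (fun p => p % 4 = 1 ∧ IsSquare (-7 : ZMod p)) (bad R N1)
    (bad_pos hR hN1) (by
      intro p hp hpN φ g hφ
      obtain ⟨h2, h7, -, -⟩ := bad_spec hpN
      constructor
      · rintro ⟨h4, h5⟩
        exact ⟨⟨(E.frob_I hφ h2).2 h4, (E.frob_7 hφ h2 h7).2 h5⟩, trivial⟩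
      · rintro ⟨hg, -⟩
        exact ⟨(E.frob_I hφ h2).1 hg.1, (E.frob_7 hφ h2 h7).1 hg.2⟩)
  have c0 : Nat.card {a : (R → ZMod 2) × ZMod 2 // True} = 2 ^ (R.card + 1) := by
    have e1 : Nat.card ((R → ZMod 2) × ZMod 2) = 2 ^ (R.card + 1) := by
      rw [Nat.card_prod, Nat.card_fun]
      simp [pow_succ]
    rw [← e1]
    exact Nat.card_congr (Equiv.subtypeUnivEquiv fun _ => trivial)
  rw [c0] at d0
  have hH : 0 < Nat.card (K1 E) := Nat.card_pos
  have hGa : 0 < Nat.card Gal(L/ℚ) := Nat.card_pos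
  have hA : 0 < Nat.card ((R → ZMod 2) × ZMod 2) := Nat.card_pos
  have h := ratio_lim (by positivity) d1 d0
  have e : (Nat.card (K1 E) : ℝ) / (Nat.card Gal(L/ℚ) : ℝ) *
      ((Nat.card {u : (R → ZMod 2) × ZMod 2 // U u} : ℝ) / Nat.card ((R → ZMod 2) × ZMod 2)) /
      ((Nat.card (K1 E) : ℝ) / (Nat.card Gal(L/ℚ) : ℝ) *
      (((2 ^ (R.card + 1) : ℕ) : ℝ) / Nat.card ((R → ZMod 2) × ZMod 2))) =
      (Nat.card {u : (R → ZMod 2) × ZMod 2 // U u} : ℝ) / 2 ^ (R.card + 1) := by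
    push_cast
    field_simp
  rw [e] at h
  convert h

end

end Pool.Agent.U687.JT
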