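import Pool.Agent.U687.JT.Field

/-!
# Frobenius elements and the fourth root of `-7`
-/

set_option autoImplicit false
set_option linter.unusedSectionVars false
set_option linter.style.haveILetI false

namespace Pool.Agent.U687.JT

open NumberField Pool.Agent.W401.Cheb
open Q283.TW (frob_sqrt gal_sqrt fixed_iff two_ne coe_smul' ng ng_mul mul_pm)

open scoped Classical in
/-- the quadratic symbol `(r / p)`, additively -/
noncomputable def nr2 (p r : ℕ) : ZMod 2 := if IsSquare (r : ZMod p) then 0 else 1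

open scoped Classical in
/-- `-7` is a fourth power modulo `p`, additively -/
noncomputable def n47 (p : ℕ) : ZMod 2 := if ∃ y : ZMod p, y ^ 4 = -7 then 0 else 1

section
variable {L : Type} [Field L] [NumberField L] [IsGalois ℚ L] {R : Finset ℕ} (E : QDat L R)

theorem QDat.theta0 : E.θ ≠ 0 := by
  intro h
  have := E.hθ
  rw [h] at this
  norm_num at this

theorem QDat.theta_int : IsIntegral ℤ E.θ := by
  apply IsIntegral.of_pow (n := 4) (by norm_num)
  have h : E.θ ^ 4 = ((-7 : ℤ) : L) := by rw [← E.hθ]; ring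
  rw [h]
  exact isIntegral_algebraMap (R := ℤ) (x := (-7 : ℤ))

theorem QDat.gal_theta (g : Gal(L/ℚ)) (hg : g (E.θ ^ 2) = E.θ ^ 2) :
    g E.θ = E.θ ∨ g E.θ = -E.θ := by
  have h : (g E.θ) ^ 2 = E.θ ^ 2 := by rw [← map_pow, hg]
  exact sq_eq_sq_iff_eq_or_eq_neg.1 h

/-- the square of an automorphism that fixes `I` and moves `θ ^ 2` moves `θ` -/
theorem QDat.sq_theta (g : Gal(L/ℚ)) (hI : g E.I = E.I) (hg : g (E.θ ^ 2) = -E.θ ^ 2) :
    (g * g) E.θ = -E.θ := by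
  have hI2 : E.I ^ 2 = -1 := by rw [E.hI]; norm_num
  have h : (g E.θ) ^ 2 = (E.I * E.θ) ^ 2 := by
    rw [← map_pow, hg, mul_pow, hI2]; ring
  have hm : (g * g) E.θ = g (g E.θ) := rfl
  rw [hm]
  rcases sq_eq_sq_iff_eq_or_eq_neg.1 h with h1 | h1
  · rw [h1, map_mul, hI, h1]
    linear_combination E.θ * hI2
  · rw [h1, map_neg, map_mul, hI, h1]
    linear_combination E.θ * hI2

variable {p : ℕ} [hp : Fact p.Prime] {φ : 𝓞 L →+* AlgebraicClosure (ZMod p)} {g : Gal(L/ℚ)}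

/-- **Frobenius and the fourth root of `-7`.** -/
theorem QDat.frob_theta (hφ : HasFrob p φ g) (h2 : p ≠ 2) (h7 : p ≠ 7) (h4 : p % 4 = 1)
    (hg : g (E.θ ^ 2) = E.θ ^ 2) : (∃ y : ZMod p, y ^ 4 = -7) ↔ g E.θ = E.θ := by
  obtain ⟨Θ, hΘ⟩ : ∃ S : 𝓞 L, algebraMap (𝓞 L) L S = E.θ := ⟨⟨E.θ, E.theta_int⟩, rfl⟩
  have hinj : Function.Injective (algebraMap (𝓞 L) L) := RingOfIntegers.coe_injective
  have hΘ4 : Θ ^ 4 = ((-7 : ℤ) : 𝓞 L) := by
    apply hinj
    rw [map_pow, map_intCast, hΘ, ← E.hθ]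
    ring
  set ι := algebraMap (ZMod p) (AlgebraicClosure (ZMod p)) with hι
  have hφ4 : φ Θ ^ 4 = ι (-7) := by
    rw [← map_pow, hΘ4, map_intCast]
    have : ι (-7) = ι (((-7 : ℤ) : ℤ) : ZMod p) := by push_cast; rfl
    rw [this, map_intCast]
  have h70 : (-7 : ZMod p) ≠ 0 := by
    intro h
    have h1 : ((7 : ℕ) : ZMod p) = 0 := by
      have : (7 : ZMod p) = 0 := by linear_combination -h
      exact_mod_cast this
    rw [ZMod.natCast_eq_zero_iff] at h1
    exact h7 ((Nat.prime_dvd_prime_iff_eq hp.out (by norm_num)).1 h1)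
  have hne : φ Θ ≠ 0 := by
    intro h
    rw [h, zero_pow (by norm_num)] at hφ4
    apply h70
    apply Q283.TW.cast_inj
    rw [← hι, ← hφ4, map_zero]
  constructor
  · rintro ⟨y, hy⟩
    rcases E.gal_theta g hg with h | h
    · exact h
    · exfalso
      obtain ⟨i, hi⟩ : ∃ i : ZMod p, i * i = -1 := by
        obtain ⟨i, hi⟩ := (ZMod.exists_sq_eq_neg_one_iff (p := p)).2 (by omega)
        exact ⟨i, hi.symm⟩
      have h1 : (φ Θ) ^ p = φ Θ := by
        rw [fixed_iff]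
        have h3 : (φ Θ ^ 2) ^ 2 = (ι (y ^ 2)) ^ 2 := by
          have e1 : (φ Θ ^ 2) ^ 2 = φ Θ ^ 4 := by ring
          have e2 : (ι (y ^ 2)) ^ 2 = ι (y ^ 4) := by rw [← map_pow]; congr 1; ring
          rw [e1, e2, hφ4, hy]
        rcases sq_eq_sq_iff_eq_or_eq_neg.1 h3 with h4 | h4
        · have h5 : φ Θ ^ 2 = (ι y) ^ 2 := by rw [h4, map_pow]
          rcases sq_eq_sq_iff_eq_or_eq_neg.1 h5 with h6 | h6
          · exact ⟨y, h6.symm⟩
          · exact ⟨-y, by rw [map_neg]; exact h6.symm⟩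
        · have h5 : φ Θ ^ 2 = (ι (i * y)) ^ 2 := by
            rw [h4, ← map_pow, ← map_neg]
            congr 1
            linear_combination -(y ^ 2) * hi
          rcases sq_eq_sq_iff_eq_or_eq_neg.1 h5 with h6 | h6
          · exact ⟨i * y, h6.symm⟩
          · exact ⟨-(i * y), by rw [map_neg]; exact h6.symm⟩
      have h5 : g • Θ = -Θ := by
        apply hinj
        rw [coe_smul', hΘ, h, map_neg, hΘ]
      have h6 := hφ Θ
      rw [h5, map_neg, h1] at h6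
      have h7 : 2 * φ Θ = 0 := by linear_combination -h6
      rcases mul_eq_zero.1 h7 with h8 | h8
      · exact two_ne h2 h8
      · exact hne h8
  · intro h
    have h5 : g • Θ = Θ := by
      apply hinj
      rw [coe_smul', hΘ, h]
    have h6 := hφ Θ
    rw [h5] at h6
    obtain ⟨z, hz⟩ := (fixed_iff _).1 h6.symm
    refine ⟨z, ?_⟩
    apply Q283.TW.cast_inj
    rw [← hι, ← hφ4, ← hz, map_pow]

theorem cast_ne {a : ℕ} (ha : ¬ p ∣ a) : ((((a : ℕ) : ℤ) : ℤ) : ZMod p) ≠ 0 := by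
  intro h
  apply ha
  rw [Int.cast_natCast, ZMod.natCast_eq_zero_iff] at h
  exact h

theorem neg_one_ne : (((-1 : ℤ) : ℤ) : ZMod p) ≠ 0 := by
  push_cast
  exact neg_ne_zero.2 one_ne_zero

theorem neg_seven_ne (h7 : p ≠ 7) : (((-7 : ℤ) : ℤ) : ZMod p) ≠ 0 := by
  intro h
  have h1 : ((7 : ℕ) : ZMod p) = 0 := by
    push_cast at h
    have : (7 : ZMod p) = 0 := by linear_combination -h
    exact_mod_cast this
  rw [ZMod.natCast_eq_zero_iff] at h1
  exact h7 ((Nat.prime_dvd_prime_iff_eq hp.out (by norm_num)).1 h1)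

/-- the square root of `-1` -/
theorem QDat.frob_I (hφ : HasFrob p φ g) (h2 : p ≠ 2) : g E.I = E.I ↔ p % 4 = 1 := by
  rw [← frob_sqrt hφ E.hI h2 neg_one_ne]
  have h : (((-1 : ℤ) : ℤ) : ZMod p) = -1 := by push_cast; rfl
  rw [h, ZMod.exists_sq_eq_neg_one_iff]
  have := hp.out.eq_two_or_odd.resolve_left h2
  omega

/-- the square root of `-7` -/
theorem QDat.frob_7 (hφ : HasFrob p φ g) (h2 : p ≠ 2) (h7 : p ≠ 7) :
    g (E.θ ^ 2) = E.θ ^ 2 ↔ IsSquare (-7 : ZMod p) := by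
  rw [← frob_sqrt hφ E.hθ h2 (neg_seven_ne h7)]
  push_cast
  exact Iff.rfl

theorem QDat.frob_7' (hφ : HasFrob p φ g) (h2 : p ≠ 2) (h7 : p ≠ 7) :
    g (E.θ ^ 2) = -E.θ ^ 2 ↔ ¬ IsSquare (-7 : ZMod p) := by
  rw [← E.frob_7 hφ h2 h7]
  have hne : -E.θ ^ 2 ≠ E.θ ^ 2 := by
    intro h0
    have h1 : (2 : L) * E.θ ^ 2 = 0 := by linear_combination -h0
    rcases mul_eq_zero.1 h1 with h5 | h5
    · norm_num at h5
    · exact pow_ne_zero 2 E.theta0 h5
  rcases gal_sqrt g E.hθ with h | h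
  · rw [h]
    exact iff_of_false hne.symm (not_not.2 rfl)
  · rw [h]
    exact iff_of_true rfl hne

/-- the square roots of the elements of `R` -/
theorem QDat.frob_s (hφ : HasFrob p φ g) (h2 : p ≠ 2) {r : ℕ} (hr : r ∈ R) (hpr : ¬ p ∣ r) :
    ng g (E.s r) = nr2 p r := by
  have h := frob_sqrt hφ (E.hs r hr) h2 (cast_ne hpr)
  unfold ng nr2
  by_cases h1 : g (E.s r) = E.s r
  · have h3 := h.2 h1
    rw [Int.cast_natCast] at h3
    rw [if_pos h1, if_pos h3]
  · have h3 : ¬ IsSquare ((r : ℕ) : ZMod p) := by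
      intro h4
      apply h1
      apply h.1
      rw [Int.cast_natCast]
      exact h4
    rw [if_neg h1, if_neg h3]

theorem QDat.frob_n47 (hφ : HasFrob p φ g) (h2 : p ≠ 2) (h7 : p ≠ 7) (h4 : p % 4 = 1)
    (hg : g (E.θ ^ 2) = E.θ ^ 2) : ng g E.θ = n47 p := by
  have h := E.frob_theta hφ h2 h7 h4 hg
  unfold ng n47
  by_cases h1 : g E.θ = E.θ
  · rw [if_pos h1, if_pos (h.2 h1)]
  · rw [if_neg h1, if_neg (fun h3 => h1 (h.1 h3))]

end

end Pool.Agent.U687.JT
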