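import Pool.Agent.U687.PT.Field
import Pool.Agent.Q283.TW.Gal

/-!
# A Galois extension of the rationals with given cube roots of Eisenstein integers, square roots of
# integers, and a fourth root of `-7`

(After `Pool.Agent.U687.PT.Field`.)
-/

set_option autoImplicit false
set_option linter.style.haveILetI false

namespace Pool.Agent.U687.JT

open Polynomial NumberField
open Pool.Agent.Y692.QS (Ei w nr hom hom_apply hom_w mul_star star_re star_im)

/-- the data: a square root of `-1`, a fourth root of `-7`, square roots of the elements of `R` -/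
structure QDat (L : Type) [Field L] [NumberField L] [IsGalois ℚ L] (R : Finset ℕ) where
  I : L
  hI : I ^ 2 = ((-1 : ℤ) : L)
  θ : L
  hθ : (θ ^ 2) ^ 2 = ((-7 : ℤ) : L)
  s : ℕ → L
  hs : ∀ r ∈ R, (s r) ^ 2 = (((r : ℕ) : ℤ) : L)

theorem exists_field (T : Finset Ei) (e : ℚ[X]) (he : e ≠ 0) : ∃ (L : Type) (_ : Field L)
    (_ : NumberField L) (_ : IsGalois ℚ L) (ζ : L) (hz : ζ ^ 3 * ζ ^ 3 = -1 - ζ ^ 3)
    (s : Ei → L), IsPrimitiveRoot ζ 9 ∧ (∀ q ∈ T, (s q) ^ 3 = hom (ζ ^ 3) hz q) ∧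
      (∀ u : ℚ[X], u ∣ e → u.natDegree ≠ 0 → ∃ x : L, (u.map (algebraMap ℚ L)).eval x = 0) := by
  classical
  set h : ℚ[X] := cyclotomic 9 ℚ with hh
  set g : Ei → ℚ[X] := fun q => X ^ 6 - C ((q + star q).re : ℚ) * X ^ 3 +
    C ((nr q : ℤ) : ℚ) with hg
  set f : ℚ[X] := e * (h * ∏ a ∈ T, g a) with hf
  have hgd : ∀ a, (g a).natDegree = 6 := fun a => Pool.Agent.U687.PT.deg6 _ _
  have hh0 : h ≠ 0 := cyclotomic_ne_zero 9 ℚ
  have hg0 : ∀ a, g a ≠ 0 := by intro a h0; have := hgd a; rw [h0] at this; simp at this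
  have hf0 : f ≠ 0 := mul_ne_zero he (mul_ne_zero hh0 (Finset.prod_ne_zero_iff.2 fun a _ => hg0 a))
  obtain ⟨L, hL, hN, hG, hsp⟩ := Q283.TW.gen_split_rat f
  have hfm : f.map (algebraMap ℚ L) ≠ 0 := by
    rwa [Ne, Polynomial.map_eq_zero]
  have key : ∀ u : L[X], u ∣ f.map (algebraMap ℚ L) → u.natDegree ≠ 0 →
      ∃ x : L, u.eval x = 0 := by
    intro u hu hd
    have h1 := hsp.of_dvd hfm hu
    refine h1.exists_eval_eq_zero ?_
    intro h2
    exact hd (natDegree_eq_of_degree_eq_some h2)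
  have hdh : h * ∏ a ∈ T, g a ∣ f := Dvd.intro_left e rfl
  obtain ⟨ζ, hζ0⟩ := key (h.map (algebraMap ℚ L)) (Polynomial.map_dvd _
    ((Dvd.intro _ rfl).trans hdh))
    (by rw [natDegree_map, hh, natDegree_cyclotomic]; exact (Nat.totient_pos.2 (by norm_num)).ne')
  have hζ : IsPrimitiveRoot ζ 9 := by
    rw [hh, map_cyclotomic] at hζ0
    haveI : NeZero ((9 : ℕ) : L) := ⟨Nat.cast_ne_zero.2 (by norm_num)⟩
    exact isRoot_cyclotomic_iff.1 hζ0
  have hz3 : IsPrimitiveRoot (ζ ^ 3) 3 := hζ.pow (by norm_num) (by norm_num)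
  have hz : ζ ^ 3 * ζ ^ 3 = -1 - ζ ^ 3 := by
    have h1 : (ζ ^ 3) ^ 3 = 1 := hz3.pow_eq_one
    have h2 : ζ ^ 3 ≠ 1 := hz3.ne_one (by norm_num)
    have h3 : (ζ ^ 3 - 1) * (ζ ^ 3 * ζ ^ 3 + ζ ^ 3 + 1) = 0 := by linear_combination h1
    rcases mul_eq_zero.1 h3 with h4 | h4
    · exact absurd (sub_eq_zero.1 h4) h2
    · linear_combination h4
  have hs : ∀ a : Ei, ∃ x : L, a ∈ T → x ^ 3 = hom (ζ ^ 3) hz a := by
    intro a
    by_cases ha : a ∈ T
    · have hdv : (X ^ 3 - C (hom (ζ ^ 3) hz a) : L[X]) ∣ (g a).map (algebraMap ℚ L) := by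
        refine Dvd.intro (X ^ 3 - C (hom (ζ ^ 3) hz (star a))) ?_
        have e1 : hom (ζ ^ 3) hz a + hom (ζ ^ 3) hz (star a) = (((a + star a).re : ℤ) : L) := by
          rw [hom_apply, hom_apply, QuadraticAlgebra.re_add, star_re, star_im]
          push_cast
          ring
        have e2 : hom (ζ ^ 3) hz a * hom (ζ ^ 3) hz (star a) = ((nr a : ℤ) : L) := by
          rw [← map_mul, mul_star, map_intCast]
        have e3 : (g a).map (algebraMap ℚ L) =
            X ^ 6 - C (hom (ζ ^ 3) hz a + hom (ζ ^ 3) hz (star a)) * X ^ 3 +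
              C (hom (ζ ^ 3) hz a * hom (ζ ^ 3) hz (star a)) := by
          rw [e1, e2, hg]
          simp
        rw [e3, C_add, C_mul]
        ring
      obtain ⟨x, hx⟩ := key (X ^ 3 - C (hom (ζ ^ 3) hz a)) (hdv.trans (Polynomial.map_dvd _
        (((Finset.dvd_prod_of_mem g ha).mul_left _).trans hdh)))
        (by rw [natDegree_X_pow_sub_C]; norm_num)
      refine ⟨x, fun _ => ?_⟩
      simp at hx
      linear_combination hx
    · exact ⟨0, fun h => absurd h ha⟩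
  choose s hs' using hs
  exact ⟨L, hL, hN, hG, ζ, hz, s, hζ, fun a ha => hs' a ha, fun u hu hd => key _
    (Polynomial.map_dvd _ (hu.trans (Dvd.intro _ rfl))) (by rwa [natDegree_map])⟩

/-- the existence of the data -/
theorem exists_dat (P : Finset Ei) (hwP : w ∉ P) (R : Finset ℕ) :
    ∃ (L : Type) (_ : Field L) (_ : NumberField L) (_ : IsGalois ℚ L),
      Nonempty (Q283.TC.Dat L P × QDat L R) := by
  classical
  set q2 : ℤ → ℚ[X] := fun a => X ^ 2 - C (a : ℚ) with hq2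
  set e7 : ℚ[X] := X ^ 4 - C (-7 : ℚ) with he7
  set e : ℚ[X] := q2 (-1) * (e7 * ∏ r ∈ R, q2 (r : ℤ)) with hed
  have hqd : ∀ a, (q2 a).natDegree = 2 := by intro a; rw [hq2]; exact natDegree_X_pow_sub_C
  have hq0 : ∀ a, q2 a ≠ 0 := by intro a h0; have := hqd a; rw [h0] at this; simp at this
  have h7d : e7.natDegree = 4 := natDegree_X_pow_sub_C
  have h70 : e7 ≠ 0 := by intro h0; rw [h0] at h7d; simp at h7d
  have he : e ≠ 0 := mul_ne_zero (hq0 _) (mul_ne_zero h70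
    (Finset.prod_ne_zero_iff.2 fun a _ => hq0 _))
  obtain ⟨L, hL, hN, hG, ζ, hz, s, hζ, hs, hroot⟩ := exists_field P e he
  refine ⟨L, hL, hN, hG, ?_⟩
  have hinj : Function.Injective (algebraMap (𝓞 L) L) := RingOfIntegers.coe_injective
  have hζi : IsIntegral ℤ ζ := hζ.isIntegral (by norm_num)
  obtain ⟨ζ', hζ'⟩ : ∃ S : 𝓞 L, algebraMap (𝓞 L) L S = ζ := ⟨⟨ζ, hζi⟩, rfl⟩
  set Z : 𝓞 L := ζ' ^ 3 with hZd
  have hZz : algebraMap (𝓞 L) L Z = ζ ^ 3 := by rw [hZd, map_pow, hζ']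
  have hZ : Z * Z = -1 - Z := by
    apply hinj
    rw [map_mul, map_sub, map_neg, map_one, hZz, hz]
  have hev : ∀ x : Ei, algebraMap (𝓞 L) L (hom Z hZ x) = hom (ζ ^ 3) hz x := by
    intro x
    rw [hom_apply, hom_apply, map_add, map_mul, map_intCast, map_intCast, hZz]
  have hsi : ∀ q : Ei, ∃ S : 𝓞 L, q ∈ P → S ^ 3 = hom Z hZ q := by
    intro q
    by_cases hq : q ∈ P
    · have h1 := hs q hq
      have hi : IsIntegral ℤ (s q) := by
        apply IsIntegral.of_pow (n := 3) (by norm_num)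
        rw [h1, ← hev]
        exact RingOfIntegers.isIntegral_coe _
      obtain ⟨S, hS⟩ : ∃ S : 𝓞 L, algebraMap (𝓞 L) L S = s q := ⟨⟨s q, hi⟩, rfl⟩
      refine ⟨S, fun _ => ?_⟩
      apply hinj
      rw [map_pow, hev, ← h1, hS]
    · exact ⟨0, fun h => absurd h hq⟩
  choose S hS using hsi
  have hE : Q283.TC.Dat L P := by
    refine { Z := Z, hZ := hZ, s := fun q => if q = w then ζ' else S q, hw := ?_, hs := ?_ }
    · rw [if_pos rfl, hom_w]
    · intro q hq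
      have hne : q ≠ w := by
        rintro rfl
        exact hwP hq
      show (if q = w then ζ' else S q) ^ 3 = _
      rw [if_neg hne]
      exact hS q hq
  have hsq : ∀ a : ℤ, q2 a ∣ e → ∃ x : L, x ^ 2 = ((a : ℤ) : L) := by
    intro a ha
    obtain ⟨x, hx⟩ := hroot (q2 a) ha (by rw [hqd]; norm_num)
    refine ⟨x, ?_⟩
    rw [hq2] at hx
    simp at hx
    linear_combination hx
  obtain ⟨I, hI⟩ := hsq (-1) (Dvd.intro _ rfl)
  obtain ⟨θ, hθ⟩ : ∃ x : L, (x ^ 2) ^ 2 = ((-7 : ℤ) : L) := by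
    obtain ⟨x, hx⟩ := hroot e7 ((Dvd.intro _ rfl : e7 ∣ e7 * ∏ r ∈ R, q2 (r : ℤ)).trans
      (Dvd.intro_left _ rfl)) (by rw [h7d]; norm_num)
    refine ⟨x, ?_⟩
    rw [he7] at hx
    simp at hx
    push_cast
    linear_combination hx
  have hr : ∀ r : ℕ, ∃ x : L, r ∈ R → x ^ 2 = (((r : ℕ) : ℤ) : L) := by
    intro r
    by_cases h : r ∈ R
    · obtain ⟨x, hx⟩ := hsq (r : ℤ) (((Finset.dvd_prod_of_mem (fun r : ℕ => q2 (r : ℤ)) h).mul_left
        e7).trans (Dvd.intro_left _ rfl))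
      exact ⟨x, fun _ => hx⟩
    · exact ⟨0, fun h1 => absurd h1 h⟩
  choose sr hsr using hr
  exact ⟨(hE, { I := I, hI := hI, θ := θ, hθ := hθ, s := sr, hs := hsr })⟩

end Pool.Agent.U687.JT
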