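import Pool.Agent.U687.JT.Surj
import Pool.Agent.U687.PT.Law

/-!
# The joint law of the quadratic, quartic and cubic symbols of the primes in a residue class
-/

set_option autoImplicit false
set_option linter.unusedSectionVars false
set_option linter.style.haveILetI false

open scoped Classical

namespace Pool.Agent.U687.JT

open Finset Filter Topology NumberField
open Pool.Agent.Y703.CT (NoSplit)
open Pool.Agent.Y692.QS (Ei w nr hom hom_apply nr_nonneg nr_zero_iff)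
open Pool.Agent.Y715.T.Rec (cs)
open Pool.Agent.Y715.T.RecG (Pq)
open Q283.TQ (NSg Bs aa bb crit)
open Q283.TC (FT Dat mod_three HH mem_HH exists_above frob_z frob_cube ar_of pq_eq_of_dvd dens_one)
open Pool.Agent.W401.Cheb (M pr mem_pr M_congr HasFrob)
open Pool.Agent.U687.PT (FT_eq sum_two class_eq PP pq_PP card_PP Phi card_Phi nsg_iff cs_w good ext0 S1)

section
variable {L : Type} [Field L] [NumberField L] [IsGalois ℚ L] {P : Finset Ei} (E3 : Dat L P)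
  (hP : ∀ q ∈ P, Pq q)

include hP in
/-- the density of a set of primary primes given by cubic symbols and by another Frobenius set -/
theorem dens_joint (C2 : Set Gal(L/ℚ)) (T2 : ℕ → Prop) (N0 : ℕ) (hN0 : 0 < N0)
    (h2 : ∀ (p : ℕ) [Fact p.Prime], ¬ p ∣ N0 → p % 3 = 1 →
      ∀ (φ : 𝓞 L →+* AlgebraicClosure (ZMod p)) (g : Gal(L/ℚ)), HasFrob p φ g → (g ∈ C2 ↔ T2 p))
    (V : (P → ZMod 3) × ZMod 3 → Prop) (T3 : Ei → Prop)
    (hT : ∀ π, Pq π → π ∉ P → (T3 π ↔ V (fun q : P => cs π q, cs π w))) :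
    Tendsto (M fun p => (FT (fun π => T2 (nr π).natAbs ∧ T3 π) p : ℝ)) atTop
      (𝓝 (2 * (Nat.card {g : Gal(L/ℚ) // g ∈ C2 ∧ ∃ h : g ∈ HH E3.Z,
        V (Multiplicative.toAdd (E3.Ψ hP ⟨g, h⟩))} : ℝ) / (Nat.card Gal(L/ℚ) : ℝ))) := by
  have hprod : 0 < ∏ q ∈ P, (nr q).natAbs := by
    apply Finset.prod_pos
    intro q hq
    have h1 : nr q ≠ 0 := fun h => (hP q hq).prime.ne_zero (nr_zero_iff.1 h)
    omega
  have hD0 : 0 < 3 * (∏ q ∈ P, (nr q).natAbs) * N0 := by positivity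
  refine dens_one E3.hZ ({g | g ∈ C2 ∧ ∃ h : g ∈ HH E3.Z,
    V (Multiplicative.toAdd (E3.Ψ hP ⟨g, h⟩))} : Set Gal(L/ℚ)) _ _ hD0 ?_
  intro p hp hpD φ g hφ
  have h3 : p ≠ 3 := by
    rintro rfl
    exact hpD ((dvd_mul_right _ _).mul_right _)
  have hpN : ¬ p ∣ N0 := fun h => hpD (h.mul_left _)
  have hpP : ∀ π : Ei, nr π = p → π ∉ P := by
    intro π hn hπ
    apply hpD
    refine Dvd.dvd.mul_right (Dvd.dvd.mul_left ?_ _) _
    have h5 : (nr π).natAbs = p := by rw [hn]; exact Int.natAbs_natCast p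
    rw [← h5]
    exact Finset.dvd_prod_of_mem (fun q : Ei => (nr q).natAbs) hπ
  have key : ∀ (π : Ei), Pq π → nr π = p → φ (hom E3.Z E3.hZ π) = 0 → ∀ hg : g ∈ HH E3.Z,
      (T3 π ↔ V (Multiplicative.toAdd (E3.Ψ hP ⟨g, hg⟩))) := by
    intro π h4 h5 h6 hg
    rw [hT π h4 (hpP π h5)]
    have e1 : (fun q : P => cs π q) = fun q : P => Q283.TC.ar E3.Z g (E3.s (q : Ei)) := by
      funext q
      symm
      apply ar_of E3.hZ (E3.s0 hP q.2)
      refine frob_cube E3.hZ hφ h3 hg h4.prime h5 h6 (E3.hs q q.2) ?_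
      intro hd
      have := pq_eq_of_dvd (hP q q.2) h4 hd
      exact hpP π h5 (this ▸ q.2)
    have e2 : cs π w = Q283.TC.ar E3.Z g (E3.s w) := by
      symm
      apply ar_of E3.hZ E3.w0
      refine frob_cube E3.hZ hφ h3 hg h4.prime h5 h6 E3.hw ?_
      intro hd
      apply h4.prime.not_isUnit
      refine isUnit_of_dvd_unit hd ?_
      rw [Pool.Agent.Y692.QS.isUnit_iff]; decide
    rw [e1, e2]
    exact Iff.rfl
  have hnat : ∀ π : Ei, nr π = p → (nr π).natAbs = p := fun π h => by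
    rw [h]; exact Int.natAbs_natCast p
  constructor
  · rintro ⟨hC, hg, hV⟩
    have hp3 : p % 3 = 1 := (frob_z E3.hZ hφ h3).1 hg
    obtain ⟨π, h4, h5, h6⟩ : ∃ π, Pq π ∧ nr π = p ∧ φ (hom E3.Z E3.hZ π) = 0 :=
      exists_above E3.hZ h3 hp3
    refine ⟨π, h4, h5, h6, ?_, (key π h4 h5 h6 hg).2 hV⟩
    rw [hnat π h5]
    exact (h2 p hpN hp3 φ g hφ).1 hC
  · rintro ⟨π, h4, h5, h6, h7, h8⟩
    have hp3 : p % 3 = 1 := mod_three h5 hp.out h3
    have hg : g ∈ HH E3.Z := by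
      rw [mem_HH, frob_z E3.hZ hφ h3]
      exact hp3
    rw [hnat π h5] at h7
    exact ⟨(h2 p hpN hp3 φ g hφ).2 h7, hg, (key π h4 h5 h6 hg).1 h8⟩

end

section
variable {D' : ℕ} {L : Type} [Field L] [NumberField L] [IsGalois ℚ L] (E3 : Dat L (PP D'))

/-- the count of the elements -/
theorem card_set (hP : ∀ q ∈ PP D', Pq q) (H : Subgroup Gal(L/ℚ)) (hle : H ≤ HH E3.Z) {A : Type}
    [AddCommGroup A] (f : H →* Multiplicative A) (Q : A → Prop)
    (V : (PP D' → ZMod 3) × ZMod 3 → Prop) :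
    Nat.card {g : Gal(L/ℚ) // g ∈ ({g | ∃ h : g ∈ H, Q (Multiplicative.toAdd (f ⟨g, h⟩))} :
      Set Gal(L/ℚ)) ∧ ∃ h : g ∈ HH E3.Z, V (Multiplicative.toAdd (E3.Ψ hP ⟨g, h⟩))} =
    Nat.card {g : H // Q (Multiplicative.toAdd (f g)) ∧
      V (Multiplicative.toAdd (((E3.Ψ hP).comp (Subgroup.inclusion hle)) g))} :=
  Nat.card_congr
    { toFun := fun x => ⟨⟨x.1, x.2.1.1⟩, x.2.1.2, x.2.2.2⟩
      invFun := fun x => ⟨x.1.1, ⟨x.1.2, x.2.1⟩, hle x.1.2, x.2.2⟩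
      left_inv := fun x => rfl
      right_inv := fun x => rfl }

/-- **The joint law**, relative to a residue class modulo `9` and a Frobenius condition `K`. -/
theorem law2 (hD : Bs D') {j : ℕ} (hj : j = 1 ∨ j = 4 ∨ j = 7) (H : Subgroup Gal(L/ℚ))
    (hle : H ≤ HH E3.Z) {A : Type} [AddCommGroup A] [Finite A] (hA2 : ∀ a : A, a + a = 0)
    (f : H →* Multiplicative A) (hf : Function.Surjective f)
    (hΨ : Function.Surjective ((E3.Ψ (pq_PP hD)).comp (Subgroup.inclusion hle)))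
    (Q0 Q : A → Prop) (K G : ℕ → Prop) (N0 : ℕ) (hN0 : 0 < N0)
    (hK : ∀ (p : ℕ) [Fact p.Prime], ¬ p ∣ N0 → p % 3 = 1 →
      ∀ (φ : 𝓞 L →+* AlgebraicClosure (ZMod p)) (g : Gal(L/ℚ)), HasFrob p φ g →
        ((∃ h : g ∈ H, Q0 (Multiplicative.toAdd (f ⟨g, h⟩))) ↔ K p))
    (hG : ∀ (p : ℕ) [Fact p.Prime], ¬ p ∣ N0 → p % 3 = 1 →
      ∀ (φ : 𝓞 L →+* AlgebraicClosure (ZMod p)) (g : Gal(L/ℚ)), HasFrob p φ g →
        ∀ h : g ∈ H, Q0 (Multiplicative.toAdd (f ⟨g, h⟩)) →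
          (Q (Multiplicative.toAdd (f ⟨g, h⟩)) ↔ G p))
    (hQ0 : 0 < Nat.card {a : A // Q0 a})
    (V : (PP D' → ZMod 3) → Prop) (R : ℕ → Prop)
    (hR : ∀ (p : ℕ) [Fact p.Prime], ¬ p ∣ N0 → p % 9 = j → p % 3 = 1 → ∀ π : Ei, Pq π → nr π = p →
      (V (fun q : PP D' => cs π q) ↔ R p)) :
    Tendsto (fun X : ℕ =>
      (((Icc 1 X).filter fun l => l.Prime ∧ l % 9 = j ∧ K l ∧ G l ∧ R l).card : ℝ) /
        (((Icc 1 X).filter fun l => l.Prime ∧ l % 9 = j ∧ K l).card : ℝ)) atTop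
      (𝓝 ((Nat.card {a : A // Q0 a ∧ Q a} : ℝ) / (Nat.card {a : A // Q0 a} : ℝ) *
        ((Nat.card {x : PP D' → ZMod 3 // V x} : ℝ) / 3 ^ (PP D').card))) := by
  have hP := pq_PP hD
  set y0 : ZMod 3 := ((j / 3 : ℕ) : ZMod 3) with hy0
  set n := (PP D').card with hNd
  set κ : ℝ := 2 * (Nat.card H : ℝ) / (Nat.card Gal(L/ℚ) : ℝ) with hκ
  have hH0 : 0 < Nat.card H := Nat.card_pos
  have hG0 : 0 < Nat.card Gal(L/ℚ) := Nat.card_pos
  have hA0 : 0 < Nat.card A := Nat.card_pos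
  have hκ0 : 0 < κ := by positivity
  have hB3 : ∀ b : (PP D' → ZMod 3) × ZMod 3, b + b + b = 0 := three_zero
  have cB : Nat.card ((PP D' → ZMod 3) × ZMod 3) = 3 ^ (n + 1) := by
    rw [Nat.card_prod, Nat.card_fun]
    simp [hNd, pow_succ]
  -- the two densities
  have gen : ∀ (Q1 : A → Prop) (V1 : (PP D' → ZMod 3) × ZMod 3 → Prop) (T2 : ℕ → Prop)
      (T3 : Ei → Prop), (∀ (p : ℕ) [Fact p.Prime], ¬ p ∣ N0 → p % 3 = 1 →
      ∀ (φ : 𝓞 L →+* AlgebraicClosure (ZMod p)) (g : Gal(L/ℚ)), HasFrob p φ g →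
        ((∃ h : g ∈ H, Q1 (Multiplicative.toAdd (f ⟨g, h⟩))) ↔ T2 p)) →
      (∀ π, Pq π → π ∉ PP D' → (T3 π ↔ V1 (fun q : PP D' => cs π q, cs π w))) →
      Tendsto (M fun p => (FT (fun π => T2 (nr π).natAbs ∧ T3 π) p : ℝ)) atTop
        (𝓝 (κ * ((Nat.card {a : A // Q1 a} : ℝ) / Nat.card A *
          ((Nat.card {b : (PP D' → ZMod 3) × ZMod 3 // V1 b} : ℝ) / 3 ^ (n + 1))))) := by
    intro Q1 V1 T2 T3 h2 h3
    have d := dens_joint E3 hP ({g | ∃ h : g ∈ H, Q1 (Multiplicative.toAdd (f ⟨g, h⟩))} :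
      Set Gal(L/ℚ)) T2 N0 hN0 (fun p _ hp hp3 φ g hφ => h2 p hp hp3 φ g hφ) V1 T3 h3
    rw [card_set E3 hP H hle f Q1 V1] at d
    have r := ratio f _ hA2 hB3 hf hΨ Q1 V1
    rw [cB] at r
    have hH' : (Nat.card H : ℝ) ≠ 0 := by positivity
    have r' := (div_eq_iff hH').1 r
    rw [r'] at d
    have e : 2 * ((Nat.card {a : A // Q1 a} : ℝ) / Nat.card A *
        ((Nat.card {b : (PP D' → ZMod 3) × ZMod 3 // V1 b} : ℝ) / ((3 ^ (n + 1) : ℕ) : ℝ)) *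
          Nat.card H) / Nat.card Gal(L/ℚ) =
        κ * ((Nat.card {a : A // Q1 a} : ℝ) / Nat.card A *
          ((Nat.card {b : (PP D' → ZMod 3) × ZMod 3 // V1 b} : ℝ) / 3 ^ (n + 1))) := by
      rw [hκ]
      push_cast
      ring
    rw [e] at d
    exact d
  have f1 := gen (fun a => Q0 a ∧ Q a) (fun z => z.2 = y0 ∧ V z.1) (fun p => K p ∧ G p)
    (fun π => cs π w = y0 ∧ V (fun q : PP D' => cs π q)) (by
      intro p _ hp hp3 φ g hφ
      have h1 := hK p hp hp3 φ g hφ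
      constructor
      · rintro ⟨h, hq0, hq⟩
        exact ⟨h1.1 ⟨h, hq0⟩, (hG p hp hp3 φ g hφ h hq0).1 hq⟩
      · rintro ⟨h3, h4⟩
        obtain ⟨h, hq0⟩ := h1.2 h3
        exact ⟨h, hq0, (hG p hp hp3 φ g hφ h hq0).2 h4⟩) (fun π _ _ => Iff.rfl)
  have f0 := gen Q0 (fun z => z.2 = y0) K (fun π => cs π w = y0) hK (fun π _ _ => Iff.rfl)
  have c1 : Nat.card {z : (PP D' → ZMod 3) × ZMod 3 // z.2 = y0 ∧ V z.1} =
      Nat.card {x : PP D' → ZMod 3 // V x} :=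
    Nat.card_congr
      { toFun := fun z => ⟨z.1.1, z.2.2⟩
        invFun := fun x => ⟨(x.1, y0), rfl, x.2⟩
        left_inv := fun z => Subtype.ext (Prod.ext rfl z.2.1.symm)
        right_inv := fun x => rfl }
  have c0 : Nat.card {z : (PP D' → ZMod 3) × ZMod 3 // z.2 = y0} = 3 ^ n := by
    have e1 : Nat.card (PP D' → ZMod 3) = 3 ^ n := by
      rw [Nat.card_fun]
      simp [hNd]
    rw [← e1]
    exact Nat.card_congr
      { toFun := fun z => z.1.1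
        invFun := fun x => ⟨(x, y0), rfl⟩
        left_inv := fun z => Subtype.ext (Prod.ext rfl z.2.symm)
        right_inv := fun x => rfl }
  rw [c1] at f1
  rw [c0] at f0
  have hD0 : 0 < 3 * N0 := by omega
  have hne3 : ∀ p : ℕ, ¬ p ∣ 3 * N0 → p ≠ 3 := by
    rintro p hp rfl
    exact hp (dvd_mul_right _ _)
  have hj3 : ∀ p : ℕ, p % 9 = j → p % 3 = 1 := by
    intro p h
    rcases hj with rfl | rfl | rfl <;> omega
  have hnat : ∀ (π : Ei) (p : ℕ), nr π = p → (nr π).natAbs = p := fun π p h => by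
    rw [h]; exact Int.natAbs_natCast p
  have g1 : Tendsto (M fun p => if p % 9 = j ∧ K p ∧ G p ∧ R p then (2 : ℝ) else 0) atTop
      (𝓝 (κ * ((Nat.card {a : A // Q0 a ∧ Q a} : ℝ) / Nat.card A *
      ((Nat.card {x : PP D' → ZMod 3 // V x} : ℝ) / 3 ^ (n + 1))))) := by
    refine M_congr hD0 (fun p hp hpD => ?_) f1
    have h3 := hne3 p hpD
    have hpN : ¬ p ∣ N0 := fun h => hpD (h.mul_left _)
    haveI : Fact p.Prime := ⟨hp⟩
    symm
    refine FT_eq hp h3 _ _ (fun h1 π hπ hn => ?_) (fun h => hj3 p h.1)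
    show ((K (nr π).natAbs ∧ G (nr π).natAbs) ∧ cs π w = y0 ∧ V _) ↔ _
    rw [hnat π p hn, cs_w hπ h1 hn, class_eq hj h1]
    constructor
    · rintro ⟨⟨a1, a2⟩, a3, a4⟩
      exact ⟨a3, a1, a2, (hR p hpN a3 h1 π hπ hn).1 a4⟩
    · rintro ⟨a3, a1, a2, a4⟩
      exact ⟨⟨a1, a2⟩, a3, (hR p hpN a3 h1 π hπ hn).2 a4⟩
  have g0 : Tendsto (M fun p => if p % 9 = j ∧ K p then (2 : ℝ) else 0) atTop
      (𝓝 (κ * ((Nat.card {a : A // Q0 a} : ℝ) / Nat.card A *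
        (((3 ^ n : ℕ) : ℝ) / 3 ^ (n + 1))))) := by
    refine M_congr hD0 (fun p hp hpD => ?_) f0
    have h3 := hne3 p hpD
    symm
    refine FT_eq hp h3 _ _ (fun h1 π hπ hn => ?_) (fun h => hj3 p h.1)
    show (K (nr π).natAbs ∧ cs π w = y0) ↔ _
    rw [hnat π p hn, cs_w hπ h1 hn, class_eq hj h1]
    exact and_comm
  have hQ0' : (0 : ℝ) < Nat.card {a : A // Q0 a} := by exact_mod_cast hQ0
  have hA' : (0 : ℝ) < Nat.card A := by exact_mod_cast hA0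
  have h6 := g1.div g0 (by positivity)
  have h7 : κ * ((Nat.card {a : A // Q0 a ∧ Q a} : ℝ) / Nat.card A *
      ((Nat.card {x : PP D' → ZMod 3 // V x} : ℝ) / 3 ^ (n + 1))) /
      (κ * ((Nat.card {a : A // Q0 a} : ℝ) / Nat.card A * (((3 ^ n : ℕ) : ℝ) / 3 ^ (n + 1)))) =
      (Nat.card {a : A // Q0 a ∧ Q a} : ℝ) / (Nat.card {a : A // Q0 a} : ℝ) *
        ((Nat.card {x : PP D' → ZMod 3 // V x} : ℝ) / 3 ^ n) := by
    push_cast
    field_simp
  rw [h7] at h6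
  refine h6.congr' ?_
  filter_upwards [eventually_ge_atTop 2] with X hX
  have hpc : (Nat.primeCounting X : ℝ) ≠ 0 := by
    have : 0 < Nat.primeCounting X := by
      have h := Nat.monotone_primeCounting hX
      have h2 : Nat.primeCounting 2 = 1 := by decide
      omega
    positivity
  show M _ X / M _ X = _
  unfold M
  rw [div_div_div_cancel_right₀ hpc]
  have e1 := sum_two (fun p => p % 9 = j ∧ K p ∧ G p ∧ R p) X
  have e0 := sum_two (fun p => p % 9 = j ∧ K p) X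
  refine (congrArg₂ (· / ·) e1 e0).trans ?_
  show 2 * _ / (2 * _) = _
  rw [mul_div_mul_left _ _ two_ne_zero]

end

end Pool.Agent.U687.JT
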